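import Mathlib

/-!
Koszul cohomology of `X = ℙ³ × ℙ¹` with respect to `L_d = 𝒪(d,d)`.
-/

namespace Pool.Agent.H940R2

open MvPolynomial Finset

/-- The six homogeneous coordinates on `ℙ³ × ℙ¹`: the four coordinates of `ℙ³` are indexed by
`Sum.inl 0, …, Sum.inl 3`, the two coordinates of `ℙ¹` by `Sum.inr 0, Sum.inr 1`. -/
abbrev Var := Fin 4 ⊕ Fin 2

/-- The ring `ℂ[x₀,x₁,x₂,x₃,w₀,w₁]`. -/
abbrev Poly := MvPolynomial Var ℂ

/-- `H⁰(ℙ³ × ℙ¹, 𝒪(e,e))`: the bihomogeneous polynomials of bidegree `(e,e)` (so it is `0` for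
negative `e`). -/
def Sec (e : ℤ) : Submodule ℂ Poly where
  carrier := {f | ∀ u : Var →₀ ℕ, coeff u f ≠ 0 →
    (∑ a : Fin 4, (u (Sum.inl a) : ℤ)) = e ∧ (∑ b : Fin 2, (u (Sum.inr b) : ℤ)) = e}
  add_mem' := by
    intro f g hf hg u hu
    rw [coeff_add] at hu
    by_cases h : coeff u f = 0
    · exact hg u (by intro h'; exact hu (by rw [h, h', add_zero]))
    · exact hf u h
  zero_mem' := by
    intro u hu
    exact absurd (coeff_zero u) hu
  smul_mem' := by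
    intro c f hf u hu
    rw [coeff_smul] at hu
    exact hf u (by intro h'; exact hu (by rw [h', smul_zero]))

/-- The monomials of bidegree `(d,d)`: the monomial basis of `H⁰(ℙ³ × ℙ¹, 𝒪(d,d))`. -/
def Mon (d : ℕ) : Type :=
  {u : Var →₀ ℕ // (∑ a : Fin 4, u (Sum.inl a)) = d ∧ (∑ b : Fin 2, u (Sum.inr b)) = d}

lemma Mon.le {d : ℕ} (u : Mon d) (c : Var) : u.1 c ≤ d := by
  rcases c with a | b
  · calc u.1 (Sum.inl a) ≤ ∑ a : Fin 4, u.1 (Sum.inl a) :=
          Finset.single_le_sum (f := fun a => u.1 (Sum.inl a)) (fun _ _ => Nat.zero_le _)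
            (Finset.mem_univ a)
      _ = d := u.2.1
  · calc u.1 (Sum.inr b) ≤ ∑ b : Fin 2, u.1 (Sum.inr b) :=
          Finset.single_le_sum (f := fun b => u.1 (Sum.inr b)) (fun _ _ => Nat.zero_le _)
            (Finset.mem_univ b)
      _ = d := u.2.2

instance (d : ℕ) : Finite (Mon d) := by
  refine Finite.of_injective
    (fun (u : Mon d) (c : Var) => (⟨u.1 c, Nat.lt_succ_of_le (u.le c)⟩ : Fin (d + 1))) ?_
  intro u u' h
  apply Subtype.ext
  ext c
  have := congrFun h c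
  simpa using this

noncomputable instance (d : ℕ) : Fintype (Mon d) := Fintype.ofFinite _

/-- `h⁰(ℙ³ × ℙ¹, 𝒪(d,d))`, the number of monomials of bidegree `(d,d)`. -/
noncomputable def h0 (d : ℕ) : ℕ := Fintype.card (Mon d)

/-- An enumeration of the monomials of bidegree `(d,d)`. -/
noncomputable def mon (d : ℕ) : Fin (h0 d) ≃ Mon d := (Fintype.equivFin (Mon d)).symm

/-- The enumerated monomial basis `s_0, …, s_{r_d}` of `H⁰(ℙ³ × ℙ¹, 𝒪(d,d))`. -/
noncomputable def bas (d : ℕ) (i : Fin (h0 d)) : Poly := monomial (mon d i).1 1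

/-- The Koszul differential. An element `∑_F s_F ⊗ f(F)` of `Λ^p H⁰(L) ⊗ H⁰(m L)` (where
`s_F = s_{i_1} ∧ … ∧ s_{i_p}` for `F = {i_1 < … < i_p}`) is represented by the function `f` on
finite sets of indices; the differential sends `s_F ⊗ t` to
`∑_j (-1)^(j-1) s_{F ∖ i_j} ⊗ (s_{i_j} t)`. -/
noncomputable def kosz (d : ℕ) :
    (Finset (Fin (h0 d)) → Poly) →ₗ[ℂ] (Finset (Fin (h0 d)) → Poly) where
  toFun f := fun G => ∑ b ∈ Gᶜ, (-1) ^ (G.filter (fun c => c < b)).card * bas d b * f (insert b G)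
  map_add' := by
    intro f g
    funext G
    simp [mul_add, Finset.sum_add_distrib]
  map_smul' := by
    intro c f
    funext G
    simp [Finset.smul_sum]

/-- `Λ^p H⁰(L_d) ⊗ H⁰(m L_d)`. -/
noncomputable def chains (d p : ℕ) (m : ℤ) : Submodule ℂ (Finset (Fin (h0 d)) → Poly) where
  carrier := {f | (∀ F, f F ∈ Sec (m * d)) ∧ ∀ F, F.card ≠ p → f F = 0}
  add_mem' := by
    rintro f g ⟨hf, hf'⟩ ⟨hg, hg'⟩
    refine ⟨fun F => Submodule.add_mem _ (hf F) (hg F), fun F hF => ?_⟩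
    rw [Pi.add_apply, hf' F hF, hg' F hF, add_zero]
  zero_mem' := ⟨fun F => Submodule.zero_mem _, fun F _ => rfl⟩
  smul_mem' := by
    rintro c f ⟨hf, hf'⟩
    refine ⟨fun F => Submodule.smul_mem _ c (hf F), fun F hF => ?_⟩
    rw [Pi.smul_apply, hf' F hF, smul_zero]

/-- The cycles in `Λ^p H⁰(L_d) ⊗ H⁰(q L_d)`. -/
noncomputable def cyc (d p : ℕ) (q : ℤ) : Submodule ℂ (Finset (Fin (h0 d)) → Poly) :=
  chains d p q ⊓ LinearMap.ker (kosz d)

/-- The boundaries: the image of `Λ^{p+1} H⁰(L_d) ⊗ H⁰((q-1) L_d)`. -/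
noncomputable def bdy (d p : ℕ) (q : ℤ) : Submodule ℂ (Finset (Fin (h0 d)) → Poly) :=
  (chains d (p + 1) (q - 1)).map (kosz d)

/-- `k_{p,q}(ℙ³ × ℙ¹; 𝒪(d,d))`, the dimension of the Koszul cohomology group, i.e. of the quotient
of the cycles by the boundaries. -/
noncomputable def kpq (d p : ℕ) (q : ℤ) : ℕ :=
  Module.finrank ℂ (cyc d p q ⧸ (bdy d p q).submoduleOf (cyc d p q))

/-- `r_d = h⁰(L_d) - 1`. -/
noncomputable def rr (d : ℕ) : ℝ := (h0 d : ℝ) - 1

end Pool.Agent.H940R2
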