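import Mathlib

/-!
Abstract complexes of functions on a set `X` of cells, restricted to regions `S ⊆ X`.
-/

namespace Pool.Agent.H940R2

open Set

variable {K X : Type*} [Field K] (deg : X → ℕ) (D : (X → K) →ₗ[K] (X → K))

/-- functions supported on the cells of `S` of degree `n` -/
def CC (S : Set X) (n : ℕ) : Submodule K (X → K) where
  carrier := {f | ∀ x, f x ≠ 0 → x ∈ S ∧ deg x = n}
  add_mem' := by
    intro f g hf hg x hx
    by_cases h : f x = 0
    · apply hg x
      intro h'
      apply hx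
      simp [h, h']
    · exact hf x h
  zero_mem' := by
    intro x hx
    simp at hx
  smul_mem' := by
    intro c f hf x hx
    apply hf x
    intro h
    apply hx
    simp [h]

open Classical in
/-- restriction of functions to a region -/
noncomputable def res (S : Set X) : (X → K) →ₗ[K] (X → K) where
  toFun f := fun x => if x ∈ S then f x else 0
  map_add' := by
    intro f g
    funext x
    by_cases h : x ∈ S <;> simp [h]
  map_smul' := by
    intro c f
    funext x
    by_cases h : x ∈ S <;> simp [h]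

lemma res_apply_mem {S : Set X} {f : X → K} {x : X} (h : x ∈ S) : res S f x = f x := by
  simp [res, h]

lemma res_apply_notMem {S : Set X} {f : X → K} {x : X} (h : x ∉ S) : res S f x = 0 := by
  simp [res, h]

lemma res_of_supp {S : Set X} {f : X → K} (h : ∀ x, f x ≠ 0 → x ∈ S) : res S f = f := by
  funext x
  by_cases hx : x ∈ S
  · rw [res_apply_mem hx]
  · rw [res_apply_notMem hx]
    by_contra h'
    exact hx (h x (Ne.symm h'))

/-- restricted differential -/
noncomputable def DS (S : Set X) : (X → K) →ₗ[K] (X → K) := (res S).comp D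

/-- cycles -/
noncomputable def ZZ (S : Set X) (n : ℕ) : Submodule K (X → K) :=
  CC deg S n ⊓ LinearMap.ker (DS D S)

/-- boundaries -/
noncomputable def BB (S : Set X) (n : ℕ) : Submodule K (X → K) :=
  (CC deg S (n + 1)).map (DS D S)

/-- homology -/
abbrev HH (S : Set X) (n : ℕ) : Type _ :=
  ZZ deg D S n ⧸ (BB deg D S n).submoduleOf (ZZ deg D S n)

/-- the operator lowers the degree by one -/
def Lowers : Prop := ∀ (n : ℕ) (f : X → K), (∀ x, f x ≠ 0 → deg x = n + 1) →
  ∀ x, D f x ≠ 0 → deg x = n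

/-- the restricted differential squares to zero -/
def Good (S : Set X) : Prop := ∀ f : X → K, (∀ x, f x ≠ 0 → x ∈ S) → DS D S (DS D S f) = 0

/-- acyclicity -/
def Ac (S : Set X) : Prop := ∀ n, ZZ deg D S n ≤ BB deg D S n

variable {deg D}

lemma mem_CC {S : Set X} {n : ℕ} {f : X → K} :
    f ∈ CC deg S n ↔ ∀ x, f x ≠ 0 → x ∈ S ∧ deg x = n := Iff.rfl

lemma mk_ZZ {S : Set X} {n : ℕ} {z : X → K} (h1 : z ∈ CC deg S n) (h2 : DS D S z = 0) :
    z ∈ ZZ deg D S n := ⟨h1, h2⟩

lemma ZZ_eq {S : Set X} {n : ℕ} {z : X → K} (h : z ∈ ZZ deg D S n) : DS D S z = 0 := h.2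

lemma CC_mono {S T : Set X} (h : S ⊆ T) {n : ℕ} {f : X → K} (hf : f ∈ CC deg S n) :
    f ∈ CC deg T n := fun x hx => ⟨h (hf x hx).1, (hf x hx).2⟩

lemma res_mem_CC {S T : Set X} {n : ℕ} {f : X → K} (hf : f ∈ CC deg T n) :
    res S f ∈ CC deg S n := by
  intro x hx
  by_cases h : x ∈ S
  · rw [res_apply_mem h] at hx
    exact ⟨h, (hf x hx).2⟩
  · rw [res_apply_notMem h] at hx
    exact absurd rfl hx

lemma DS_mem_CC (hL : Lowers deg D) {S T : Set X} {n : ℕ} {f : X → K}
    (hf : f ∈ CC deg T (n + 1)) : DS D S f ∈ CC deg S n := by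
  intro x hx
  by_cases h : x ∈ S
  · refine ⟨h, hL n f (fun y hy => (hf y hy).2) x ?_⟩
    simpa [DS, res_apply_mem h] using hx
  · exfalso
    apply hx
    simp [DS, res_apply_notMem h]

lemma DS_apply_mem {S : Set X} {f : X → K} {x : X} (h : x ∈ S) : DS D S f x = D f x := by
  simp [DS, res_apply_mem h]

lemma DS_apply_notMem {S : Set X} {f : X → K} {x : X} (h : x ∉ S) : DS D S f x = 0 := by
  simp [DS, res_apply_notMem h]

/-- a decomposition of the region `S` into a closed part `S1` and an open part `S2` -/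
structure Split (D : (X → K) →ₗ[K] (X → K)) (S S1 S2 : Set X) : Prop where
  union : S = S1 ∪ S2
  disj : Disjoint S1 S2
  closed : ∀ f : X → K, (∀ x, f x ≠ 0 → x ∈ S1) → ∀ x ∈ S2, D f x = 0
  good : Good D S

namespace Split

variable {S S1 S2 : Set X} (h : Split D S S1 S2)
include h

lemma sub1 : S1 ⊆ S := by rw [h.union]; exact subset_union_left
lemma sub2 : S2 ⊆ S := by rw [h.union]; exact subset_union_right

lemma not2 {x : X} (hx : x ∈ S1) : x ∉ S2 := fun h2 => (Set.disjoint_left.mp h.disj) hx h2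

lemma not1 {x : X} (hx : x ∈ S2) : x ∉ S1 := fun h1 => (Set.disjoint_left.mp h.disj) h1 hx

/-- on functions supported on `S1` the restricted differentials for `S` and `S1` agree -/
lemma DS_eq {f : X → K} (hf : ∀ x, f x ≠ 0 → x ∈ S1) : DS D S f = DS D S1 f := by
  funext x
  by_cases h1 : x ∈ S1
  · rw [DS_apply_mem (h.sub1 h1), DS_apply_mem h1]
  · rw [DS_apply_notMem h1]
    by_cases h2 : x ∈ S2
    · rw [DS_apply_mem (h.sub2 h2)]
      exact h.closed f hf x h2
    · apply DS_apply_notMem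
      rw [h.union]
      simp [h1, h2]

/-- decomposition of the restricted differential -/
lemma DS_add (f : X → K) : DS D S f = DS D S1 f + DS D S2 f := by
  funext x
  by_cases h1 : x ∈ S1
  · rw [Pi.add_apply, DS_apply_mem (h.sub1 h1), DS_apply_mem h1, DS_apply_notMem (h.not2 h1)]
    simp
  · by_cases h2 : x ∈ S2
    · rw [Pi.add_apply, DS_apply_mem (h.sub2 h2), DS_apply_notMem h1, DS_apply_mem h2]
      simp
    · rw [Pi.add_apply, DS_apply_notMem h1, DS_apply_notMem h2, DS_apply_notMem]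
      · simp
      · rw [h.union]; simp [h1, h2]

lemma res_add {f : X → K} (hf : ∀ x, f x ≠ 0 → x ∈ S) : f = res S1 f + res S2 f := by
  funext x
  by_cases h1 : x ∈ S1
  · rw [Pi.add_apply, res_apply_mem h1, res_apply_notMem (h.not2 h1)]
    simp
  · by_cases h2 : x ∈ S2
    · rw [Pi.add_apply, res_apply_notMem h1, res_apply_mem h2]
      simp
    · rw [Pi.add_apply, res_apply_notMem h1, res_apply_notMem h2]
      by_contra h'
      have := hf x (by simpa using h')
      rw [h.union] at this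
      simp [h1, h2] at this

lemma DS2_eq_zero {f : X → K} (hf : ∀ x, f x ≠ 0 → x ∈ S1) : DS D S2 f = 0 := by
  funext x
  by_cases h2 : x ∈ S2
  · rw [DS_apply_mem h2]; exact h.closed f hf x h2
  · rw [DS_apply_notMem h2]; rfl

/-- `S2`-part of a cycle is a cycle -/
lemma res2_cycle {n : ℕ} {z : X → K} (hz : z ∈ ZZ deg D S n) : res S2 z ∈ ZZ deg D S2 n := by
  refine mk_ZZ (res_mem_CC hz.1) ?_
  have h1 : DS D S z = 0 := hz.2
  have h2 : z = res S1 z + res S2 z := h.res_add (fun x hx => (hz.1 x hx).1)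
  have h3 : DS D S2 z = 0 := by
    funext x
    by_cases hx : x ∈ S2
    · rw [DS_apply_mem hx, ← DS_apply_mem (h.sub2 hx), h1]
    · rw [DS_apply_notMem hx]; rfl
  rw [h2, map_add] at h3
  rw [h.DS2_eq_zero (fun x hx => (res_mem_CC hz.1 x hx).1), zero_add] at h3
  exact h3

lemma good_apply {f : X → K} (hf : ∀ x, f x ≠ 0 → x ∈ S) : DS D S (DS D S f) = 0 := h.good f hf

lemma cyc1_sub {n : ℕ} {z : X → K} (hz : z ∈ ZZ deg D S1 n) : z ∈ ZZ deg D S n := by
  refine mk_ZZ (CC_mono h.sub1 hz.1) ?_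
  rw [h.DS_eq (fun x hx => (hz.1 x hx).1)]
  exact hz.2

lemma cyc_of_supp1 {n : ℕ} {z : X → K} (hz : z ∈ ZZ deg D S n) (hz1 : z ∈ CC deg S1 n) :
    z ∈ ZZ deg D S1 n := by
  refine mk_ZZ hz1 ?_
  rw [← h.DS_eq (fun x hx => (hz1 x hx).1)]
  exact hz.2

lemma boundary_cycle (hL : Lowers deg D) {n : ℕ} {y : X → K} (hy : y ∈ CC deg S (n + 1)) :
    DS D S y ∈ ZZ deg D S n :=
  ⟨DS_mem_CC hL hy, h.good_apply (fun x hx => (hy x hx).1)⟩

/-- if the open part `S2` is acyclic, every cycle is homologous to one supported on `S1` -/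
lemma push1 (hL : Lowers deg D) (h2 : Ac deg D S2) {n : ℕ} {z : X → K} (hz : z ∈ ZZ deg D S n) :
    ∃ y ∈ CC deg S (n + 1), z - DS D S y ∈ ZZ deg D S1 n := by
  obtain ⟨y, hy, hyz⟩ := h2 n (h.res2_cycle hz)
  refine ⟨y, CC_mono h.sub2 hy, ?_⟩
  have hyS : y ∈ CC deg S (n + 1) := CC_mono h.sub2 hy
  have e : z - DS D S y = res S1 z - DS D S1 y := by
    have h3 : z = res S1 z + res S2 z := h.res_add (fun x hx => (hz.1 x hx).1)
    rw [h.DS_add y, hyz]
    nth_rewrite 1 [h3]
    abel
  apply h.cyc_of_supp1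
  · exact Submodule.sub_mem _ hz (h.boundary_cycle hL hyS)
  · rw [e]
    exact Submodule.sub_mem _ (res_mem_CC hz.1) (DS_mem_CC hL hy)

end Split

/-- two-out-of-three for acyclicity -/
lemma Ac.of_split (hL : Lowers deg D) {S S1 S2 : Set X} (h : Split D S S1 S2)
    (h1 : Ac deg D S1) (h2 : Ac deg D S2) : Ac deg D S := by
  intro n z hz
  obtain ⟨y, hy, hzy⟩ := h.push1 hL h2 hz
  obtain ⟨w, hw, hwz⟩ := h1 n hzy
  refine ⟨w + y, Submodule.add_mem _ (CC_mono h.sub1 hw) hy, ?_⟩
  rw [map_add, h.DS_eq (fun x hx => (hw x hx).1), hwz]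
  abel

/-- Equality of homology through linear equivalence. -/
def IsoH (deg : X → ℕ) (D : (X → K) →ₗ[K] (X → K)) (S : Set X) (n : ℕ) (T : Set X) (m : ℕ) : Prop :=
  Nonempty (HH deg D S n ≃ₗ[K] HH deg D T m)

/-- A way to build an isomorphism of subquotients. -/
lemma quot_equiv {V W : Type*} [AddCommGroup V] [Module K V] [AddCommGroup W] [Module K W]
    (Z B : Submodule K V) (Z' B' : Submodule K W)
    (φ : Z →ₗ[K] W)
    (h1 : ∀ z, φ z ∈ Z')
    (h2 : ∀ w ∈ Z', ∃ z : Z, ∃ b ∈ B', b ∈ Z' ∧ φ z = w - b)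
    (h3 : ∀ z : Z, φ z ∈ B' ↔ (z : V) ∈ B) :
    Nonempty ((Z ⧸ B.submoduleOf Z) ≃ₗ[K] (Z' ⧸ B'.submoduleOf Z')) := by
  let ψ : Z →ₗ[K] (Z' ⧸ B'.submoduleOf Z') :=
    (Submodule.mkQ (B'.submoduleOf Z')).comp (φ.codRestrict Z' h1)
  have hker : LinearMap.ker ψ = B.submoduleOf Z := by
    ext z
    rw [LinearMap.mem_ker]
    change Submodule.Quotient.mk _ = 0 ↔ _
    rw [Submodule.Quotient.mk_eq_zero]
    rw [Submodule.submoduleOf, Submodule.submoduleOf, Submodule.mem_comap, Submodule.mem_comap]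
    exact h3 z
  have hsurj : Function.Surjective ψ := by
    intro w
    obtain ⟨⟨w, hw⟩, rfl⟩ := Submodule.Quotient.mk_surjective _ w
    obtain ⟨z, b, hb, hbZ, hz⟩ := h2 w hw
    refine ⟨z, ?_⟩
    change Submodule.Quotient.mk _ = Submodule.Quotient.mk _
    rw [Submodule.Quotient.eq]
    rw [Submodule.submoduleOf, Submodule.mem_comap]
    have : (Z'.subtype (φ.codRestrict Z' h1 z - ⟨w, hw⟩)) = -b := by
      simp [hz]
    rw [this]
    exact Submodule.neg_mem _ hb
  exact ⟨(Submodule.quotEquivOfEq _ _ hker.symm).trans (ψ.quotKerEquivOfSurjective hsurj)⟩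

/-- If the open part is acyclic, the closed part computes the homology. -/
lemma Split.iso1 (hL : Lowers deg D) {S S1 S2 : Set X} (h : Split D S S1 S2)
    (h2 : Ac deg D S2) (n : ℕ) : IsoH deg D S1 n S n := by
  refine quot_equiv _ _ _ _ (Submodule.subtype _) (fun z => h.cyc1_sub z.2) ?_ ?_
  · intro w hw
    obtain ⟨y, hy, hz⟩ := h.push1 hL h2 hw
    exact ⟨⟨_, hz⟩, DS D S y, ⟨y, hy, rfl⟩, h.boundary_cycle hL hy, rfl⟩
  · intro z
    constructor
    · rintro ⟨y, hy, hyz⟩
      have hyc : res S2 y ∈ ZZ deg D S2 (n + 1) := by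
        refine mk_ZZ (res_mem_CC hy) ?_
        have e : y = res S1 y + res S2 y := h.res_add (fun x hx => (hy x hx).1)
        have e2 : DS D S2 y = 0 := by
          funext x
          by_cases hx : x ∈ S2
          · rw [DS_apply_mem hx, ← DS_apply_mem (h.sub2 hx), hyz]
            change (z : X → K) x = 0
            by_contra hne
            exact h.not1 hx (z.2.1 x hne).1
          · rw [DS_apply_notMem hx]; rfl
        rw [e, map_add, h.DS2_eq_zero (fun x hx => (res_mem_CC hy x hx).1), zero_add] at e2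
        exact e2
      obtain ⟨w, hw, hwy⟩ := h2 (n + 1) hyc
      have hwS : w ∈ CC deg S (n + 1 + 1) := CC_mono h.sub2 hw
      have e1 : y - DS D S w = res S1 y - DS D S1 w := by
        have e3 : y = res S1 y + res S2 y := h.res_add (fun x hx => (hy x hx).1)
        rw [h.DS_add w, hwy]
        nth_rewrite 1 [e3]
        abel
      have e4 : y - DS D S w ∈ CC deg S1 (n + 1) := by
        rw [e1]
        exact Submodule.sub_mem _ (res_mem_CC hy) (DS_mem_CC hL hw)
      refine ⟨y - DS D S w, e4, ?_⟩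
      rw [← h.DS_eq (fun x hx => (e4 x hx).1), map_sub, hyz,
        h.good_apply (fun x hx => (hwS x hx).1)]
      simp
    · rintro ⟨y, hy, hyz⟩
      refine ⟨y, CC_mono h.sub1 hy, ?_⟩
      rw [h.DS_eq (fun x hx => (hy x hx).1), hyz]
      rfl

/-- If the closed part is acyclic, the open part computes the homology. -/
lemma Split.iso2 (hL : Lowers deg D) {S S1 S2 : Set X} (h : Split D S S1 S2)
    (h1 : Ac deg D S1) (n : ℕ) : IsoH deg D S (n + 1) S2 (n + 1) := by
  refine quot_equiv _ _ _ _ ((res S2).comp (Submodule.subtype _)) (fun z => h.res2_cycle z.2) ?_ ?_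
  · intro w hw
    -- w is a cycle for S2; D w restricted to S1 is a cycle
    have hwS : w ∈ CC deg S (n + 1) := CC_mono h.sub2 hw.1
    have e0 : DS D S w = DS D S1 w := by
      rw [h.DS_add w, (LinearMap.mem_ker.mp hw.2), add_zero]
    have hc : DS D S w ∈ ZZ deg D S1 n := by
      apply h.cyc_of_supp1 (h.boundary_cycle hL hwS)
      rw [e0]
      exact DS_mem_CC hL hwS
    obtain ⟨x1, hx1, hx1e⟩ := h1 n hc
    have hx1S : x1 ∈ CC deg S (n + 1) := CC_mono h.sub1 hx1
    refine ⟨⟨w - x1, mk_ZZ (Submodule.sub_mem _ hwS hx1S) ?_⟩, 0, Submodule.zero_mem _,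
      Submodule.zero_mem _, ?_⟩
    · rw [map_sub, h.DS_eq (f := x1) (fun x hx => (hx1 x hx).1), hx1e, sub_self]
    · change res S2 (w - x1) = w - 0
      rw [map_sub, sub_zero, res_of_supp (fun x hx => (hw.1 x hx).1)]
      have : res S2 x1 = 0 := by
        funext x
        by_cases hx : x ∈ S2
        · rw [res_apply_mem hx]
          by_contra hne
          exact h.not1 hx (hx1 x hne).1
        · rw [res_apply_notMem hx]; rfl
      rw [this, sub_zero]
  · intro z
    constructor
    · rintro ⟨y, hy, hyz⟩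
      -- res S2 z = DS S2 y
      have hyS : y ∈ CC deg S (n + 1 + 1) := CC_mono h.sub2 hy
      have e1 : (z : X → K) - DS D S y = res S1 z - DS D S1 y := by
        have e3 : (z : X → K) = res S1 z + res S2 z := h.res_add (fun x hx => (z.2.1 x hx).1)
        have hyz' : DS D S2 y = res S2 (z : X → K) := hyz
        rw [h.DS_add y, hyz']
        nth_rewrite 1 [e3]
        abel
      have e2 : (z : X → K) - DS D S y ∈ ZZ deg D S1 (n + 1) := by
        apply h.cyc_of_supp1
        · exact Submodule.sub_mem _ z.2 (h.boundary_cycle hL hyS)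
        · rw [e1]
          exact Submodule.sub_mem _ (res_mem_CC z.2.1) (DS_mem_CC hL hy)
      obtain ⟨w, hw, hwz⟩ := h1 (n + 1) e2
      refine ⟨w + y, Submodule.add_mem _ (CC_mono h.sub1 hw) hyS, ?_⟩
      rw [map_add, h.DS_eq (fun x hx => (hw x hx).1), hwz]
      abel
    · rintro ⟨y, hy, hyz⟩
      refine ⟨res S2 y, res_mem_CC hy, ?_⟩
      change DS D S2 (res S2 y) = res S2 (z : X → K)
      rw [← hyz]
      have e : y = res S1 y + res S2 y := h.res_add (fun x hx => (hy x hx).1)
      have e2 : DS D S2 y = DS D S2 (res S2 y) := by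
        conv_lhs => rw [e]
        rw [map_add, h.DS2_eq_zero (fun x hx => (res_mem_CC hy x hx).1), zero_add]
      rw [← e2]
      funext x
      by_cases hx : x ∈ S2
      · rw [DS_apply_mem hx, res_apply_mem hx, DS_apply_mem (h.sub2 hx)]
      · rw [DS_apply_notMem hx, res_apply_notMem hx]

/-- The connecting isomorphism when the middle region is acyclic. -/
lemma Split.flip (hL : Lowers deg D) {S S1 S2 : Set X} (h : Split D S S1 S2)
    (h0 : Ac deg D S) (n : ℕ) : IsoH deg D S2 (n + 1) S1 n := by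
  refine quot_equiv _ _ _ _ ((DS D S).comp (Submodule.subtype _)) ?_ ?_ ?_
  · intro z
    have hzS : (z : X → K) ∈ CC deg S (n + 1) := CC_mono h.sub2 z.2.1
    apply h.cyc_of_supp1 (h.boundary_cycle hL hzS)
    have e0 : DS D S (z : X → K) = DS D S1 (z : X → K) := by
      rw [h.DS_add, (LinearMap.mem_ker.mp z.2.2), add_zero]
    change DS D S (z : X → K) ∈ _
    rw [e0]
    exact DS_mem_CC hL hzS
  · intro w hw
    obtain ⟨y, hy, hyw⟩ := h0 n (h.cyc1_sub hw)
    have e : y = res S1 y + res S2 y := h.res_add (fun x hx => (hy x hx).1)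
    have hc : res S2 y ∈ ZZ deg D S2 (n + 1) := by
      refine mk_ZZ (res_mem_CC hy) ?_
      have e2 : DS D S2 y = 0 := by
        funext x
        by_cases hx : x ∈ S2
        · rw [DS_apply_mem hx, ← DS_apply_mem (h.sub2 hx), hyw]
          change w x = 0
          by_contra hne
          exact h.not1 hx (hw.1 x hne).1
        · rw [DS_apply_notMem hx]; rfl
      rw [e, map_add, h.DS2_eq_zero (fun x hx => (res_mem_CC hy x hx).1), zero_add] at e2
      exact e2
    have hr1 : res S1 y ∈ CC deg S1 (n + 1) := res_mem_CC hy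
    refine ⟨⟨res S2 y, hc⟩, DS D S (res S1 y), ?_, ?_, ?_⟩
    · rw [h.DS_eq (fun x hx => (hr1 x hx).1)]
      exact ⟨_, hr1, rfl⟩
    · apply h.cyc_of_supp1 (h.boundary_cycle hL (CC_mono h.sub1 hr1))
      rw [h.DS_eq (fun x hx => (hr1 x hx).1)]
      exact DS_mem_CC hL hr1
    · change DS D S (res S2 y) = w - DS D S (res S1 y)
      rw [eq_sub_iff_add_eq, ← map_add, add_comm, ← e, hyw]
  · intro z
    constructor
    · rintro ⟨x1, hx1, hx1e⟩
      -- DS S z = DS S1 x1
      have hx1S : x1 ∈ CC deg S (n + 1) := CC_mono h.sub1 hx1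
      have hzS : (z : X → K) ∈ CC deg S (n + 1) := CC_mono h.sub2 z.2.1
      have hc : (z : X → K) - x1 ∈ ZZ deg D S (n + 1) := by
        refine mk_ZZ (Submodule.sub_mem _ hzS hx1S) ?_
        rw [map_sub, h.DS_eq (f := x1) (fun x hx => (hx1 x hx).1), hx1e]
        simp
      obtain ⟨y, hy, hyz⟩ := h0 (n + 1) hc
      refine ⟨res S2 y, res_mem_CC hy, ?_⟩
      have e : y = res S1 y + res S2 y := h.res_add (fun x hx => (hy x hx).1)
      have e2 : DS D S2 y = DS D S2 (res S2 y) := by
        conv_lhs => rw [e]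
        rw [map_add, h.DS2_eq_zero (fun x hx => (res_mem_CC hy x hx).1), zero_add]
      rw [← e2]
      funext x
      by_cases hx : x ∈ S2
      · rw [DS_apply_mem hx, ← DS_apply_mem (h.sub2 hx), hyz, Pi.sub_apply]
        have : x1 x = 0 := by
          by_contra hne
          exact h.not1 hx (hx1 x hne).1
        rw [this, sub_zero]
      · rw [DS_apply_notMem hx]
        by_contra hne
        exact hx (z.2.1 x (fun h' => hne h'.symm)).1
    · rintro ⟨y, hy, hyz⟩
      have hyS : y ∈ CC deg S (n + 1 + 1) := CC_mono h.sub2 hy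
      have e1 : (z : X → K) = DS D S y - DS D S1 y := by
        rw [h.DS_add y, hyz]; simp
      have hm : DS D S1 y ∈ CC deg S1 (n + 1) := DS_mem_CC hL hy
      refine ⟨-(DS D S1 y), Submodule.neg_mem _ hm, ?_⟩
      change _ = DS D S (z : X → K)
      rw [e1, map_sub, h.good_apply (fun x hx => (hyS x hx).1), map_neg,
        h.DS_eq (fun x hx => (hm x hx).1)]
      simp

end Pool.Agent.H940R2
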