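import Mathlib
import Pool.Agent.H940R2.Cells

/-!
The Koszul differential on functions on `Finset J × L`, `L` an abelian group and `v : J → L`.
-/

namespace Pool.Agent.H940R2

open Finset

variable {J L K : Type*} [Fintype J] [LinearOrder J] [AddCommGroup L] [Field K]

/-- the Koszul sign -/
def sg (K : Type*) [Field K] {J : Type*} [LinearOrder J] (G : Finset J) (b : J) : K :=
  (-1 : K) ^ (G.filter (fun c => c < b)).card

lemma sg_mul_self (G : Finset J) (b : J) : sg K G b * sg K G b = 1 := by
  rw [sg, ← pow_add, ← two_mul, pow_mul]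
  simp

lemma sg_ne_zero (G : Finset J) (b : J) : sg K G b ≠ 0 := by
  rw [sg]
  exact pow_ne_zero _ (by simp)

omit [Fintype J] in
lemma sg_insert (G : Finset J) {b c : J} (hc : c ∉ G) :
    sg K (insert c G) b = (if c < b then -1 else 1) * sg K G b := by
  rw [sg, sg, Finset.filter_insert]
  split_ifs with h
  · rw [Finset.card_insert_of_notMem (by simp [hc]), pow_succ]
    ring
  · simp

omit [Fintype J] in
lemma sg_anti (G : Finset J) {b c : J} (hb : b ∉ G) (hc : c ∉ G) (hbc : b ≠ c) :
    sg K G b * sg K (insert b G) c = -(sg K G c * sg K (insert c G) b) := by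
  rw [sg_insert G hb, sg_insert G hc]
  rcases lt_or_gt_of_ne hbc with h | h
  · rw [if_pos h, if_neg (not_lt.mpr h.le)]
    ring
  · rw [if_pos h, if_neg (not_lt.mpr h.le)]
    ring

lemma double_sum_zero (G : Finset J) (T : J → J → K)
    (hT : ∀ b c, b ∉ G → c ∉ G → b ≠ c → T b c + T c b = 0) :
    ∑ b ∈ Gᶜ, ∑ c ∈ (insert b G)ᶜ, T b c = 0 := by
  rw [Finset.sum_sigma']
  refine Finset.sum_involution (fun x _ => ⟨x.2, x.1⟩) ?_ ?_ ?_ ?_
  · rintro ⟨b, c⟩ h
    simp only [Finset.mem_sigma, Finset.mem_compl, Finset.mem_insert, not_or] at h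
    exact hT b c h.1 h.2.2 (Ne.symm h.2.1)
  · rintro ⟨b, c⟩ h _ h'
    simp only [Finset.mem_sigma, Finset.mem_compl, Finset.mem_insert, not_or] at h
    simp only [Sigma.mk.injEq, heq_eq_eq] at h'
    exact h.2.1 h'.1
  · rintro ⟨b, c⟩ h
    simp only [Finset.mem_sigma, Finset.mem_compl, Finset.mem_insert, not_or] at h ⊢
    exact ⟨h.2.2, Ne.symm h.2.1, h.1⟩
  · rintro ⟨b, c⟩ h
    rfl

variable (K) in
/-- the Koszul differential -/
def DK (v : J → L) : (Finset J × L → K) →ₗ[K] (Finset J × L → K) where
  toFun f := fun x => ∑ b ∈ x.1ᶜ, sg K x.1 b * f (insert b x.1, x.2 - v b)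
  map_add' := by
    intro f g
    funext x
    simp [mul_add, Finset.sum_add_distrib]
  map_smul' := by
    intro c f
    funext x
    simp only [Pi.smul_apply, smul_eq_mul, RingHom.id_apply, Finset.mul_sum]
    refine Finset.sum_congr rfl fun b _ => ?_
    ring

/-- exterior degree of a cell -/
def dg : Finset J × L → ℕ := fun x => x.1.card

omit [AddCommGroup L] [Fintype J] [LinearOrder J] in
@[simp] lemma dg_mk (G : Finset J) (u : L) : dg (G, u) = G.card := rfl

variable (v : J → L)

lemma DK_apply (f : Finset J × L → K) (G : Finset J) (u : L) :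
    DK K v f (G, u) = ∑ b ∈ Gᶜ, sg K G b * f (insert b G, u - v b) := rfl

lemma DK_lowers : Lowers dg (DK K v) := by
  intro n f hf x hx
  obtain ⟨G, u⟩ := x
  rw [DK_apply] at hx
  obtain ⟨b, hb, hb'⟩ := Finset.exists_ne_zero_of_sum_ne_zero hx
  have h1 := hf _ (right_ne_zero_of_mul hb')
  rw [dg_mk, Finset.card_insert_of_notMem (by simpa using hb)] at h1
  rw [dg_mk]
  omega

lemma DK_DK (f : Finset J × L → K) : DK K v (DK K v f) = 0 := by
  funext x
  obtain ⟨G, u⟩ := x
  rw [DK_apply]
  simp only [DK_apply, Finset.mul_sum, Pi.zero_apply]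
  apply double_sum_zero
  intro b c hb hc hbc
  have h1 := sg_anti (K := K) G hb hc hbc
  have h2 : (insert c (insert b G), u - v b - v c) = (insert b (insert c G), u - v c - v b) := by
    rw [Finset.insert_comm]
    congr 1
    abel
  rw [← mul_assoc, ← mul_assoc, h1, h2]
  ring

/-- convexity of a region -/
def Conv (S : Set (Finset J × L)) : Prop :=
  ∀ (G : Finset J) (u : L) (b c : J), b ∉ G → c ∉ G → b ≠ c → (G, u) ∈ S →
    (insert c (insert b G), u - v b - v c) ∈ S → (insert b G, u - v b) ∈ S

variable {v}

lemma Conv.good {S : Set (Finset J × L)} (hS : Conv v S) : Good (DK K v) S := by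
  intro f hf
  funext x
  obtain ⟨G, u⟩ := x
  by_cases hx : (G, u) ∈ S
  · rw [DS_apply_mem hx]
    have h0 : DK K v (DK K v f) (G, u) = 0 := by rw [DK_DK]; rfl
    rw [Pi.zero_apply, ← h0, DK_apply, DK_apply]
    refine Finset.sum_congr rfl fun b hb => ?_
    congr 1
    by_cases hb' : (insert b G, u - v b) ∈ S
    · rw [DS_apply_mem hb']
    · rw [DS_apply_notMem hb', DK_apply]
      symm
      apply Finset.sum_eq_zero
      intro c hc
      simp only [Finset.mem_compl, Finset.mem_insert, not_or] at hb hc
      by_contra hne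
      have h1 := hf _ (right_ne_zero_of_mul hne)
      exact hb' (hS G u b c hb hc.2 (Ne.symm hc.1) hx h1)
  · rw [DS_apply_notMem hx]; rfl

/-- a region invariant under adding the vertex `b` is acyclic -/
lemma cone_ac (S : Set (Finset J × L)) (b : J)
    (hS : ∀ (F : Finset J) (u : L), b ∉ F → ((F, u) ∈ S ↔ (insert b F, u - v b) ∈ S)) :
    Ac dg (DK K v) S := by
  classical
  intro n z hz
  let h : Finset J × L → K := fun x =>
    if b ∈ x.1 then sg K (x.1.erase b) b * z (x.1.erase b, x.2 + v b) else 0
  have hC : h ∈ CC dg S (n + 1) := by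
    rintro ⟨F, u⟩ hx
    simp only [h] at hx
    split_ifs at hx with hb
    · have h1 := hz.1 _ (right_ne_zero_of_mul hx)
      constructor
      · have h2 := (hS (F.erase b) (u + v b) (Finset.notMem_erase b F)).mp h1.1
        rwa [Finset.insert_erase hb, add_sub_cancel_right] at h2
      · have h2 := h1.2
        rw [dg_mk, Finset.card_erase_of_mem hb] at h2
        rw [dg_mk]
        have : 0 < F.card := Finset.card_pos.mpr ⟨b, hb⟩
        omega
    · exact absurd rfl hx
  refine ⟨h, hC, ?_⟩
  have hz0 : ∀ x ∈ S, DK K v z x = 0 := by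
    intro x hx
    rw [← DS_apply_mem (D := DK K v) hx, ZZ_eq hz]
    rfl
  funext x
  obtain ⟨F, u⟩ := x
  by_cases hx : (F, u) ∈ S
  · rw [DS_apply_mem hx, DK_apply]
    by_cases hb : b ∈ F
    · -- F = insert b F0
      obtain ⟨F0, hF0, rfl⟩ : ∃ F0, b ∉ F0 ∧ insert b F0 = F :=
        ⟨F.erase b, Finset.notMem_erase b F, Finset.insert_erase hb⟩
      have h1 : (F0, u + v b) ∈ S := by
        rw [hS F0 _ hF0, add_sub_cancel_right]
        exact hx
      have h2 := hz0 _ h1
      rw [DK_apply] at h2
      have h3 : F0ᶜ = insert b (insert b F0)ᶜ := by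
        ext c
        simp only [Finset.mem_compl, Finset.mem_insert, not_or]
        by_cases hc : c = b
        · subst hc; simp [hF0]
        · simp [hc]
      rw [h3, Finset.sum_insert (by simp)] at h2
      rw [add_sub_cancel_right] at h2
      have h4 : sg K F0 b * (sg K F0 b * z (insert b F0, u)) +
          sg K F0 b * ∑ c ∈ (insert b F0)ᶜ, sg K F0 c * z (insert c F0, u + v b - v c) = 0 := by
        rw [← mul_add, h2, mul_zero]
      rw [← mul_assoc, sg_mul_self, one_mul] at h4
      have h5 : z (insert b F0, u) =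
          -(sg K F0 b * ∑ c ∈ (insert b F0)ᶜ, sg K F0 c * z (insert c F0, u + v b - v c)) := by
        linear_combination h4
      rw [h5, Finset.mul_sum, ← Finset.sum_neg_distrib]
      refine Finset.sum_congr rfl fun c hc => ?_
      simp only [Finset.mem_compl, Finset.mem_insert, not_or] at hc
      have h6 : b ∈ insert c (insert b F0) := by simp
      simp only [h, if_pos h6]
      have h7 : (insert c (insert b F0)).erase b = insert c F0 := by
        rw [Finset.insert_comm, Finset.erase_insert]
        simp [hF0, Ne.symm hc.1]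
      rw [h7]
      have h8 := sg_anti (K := K) F0 hF0 hc.2 (Ne.symm hc.1)
      have h9 : u - v c + v b = u + v b - v c := by abel
      rw [h9, ← mul_assoc, ← mul_assoc]
      have h10 : sg K (insert b F0) c * sg K (insert c F0) b = -(sg K F0 b * sg K F0 c) := by
        have e1 := sg_mul_self (K := K) F0 b
        have e2 := sg_mul_self (K := K) (insert c F0) b
        -- from sg F0 b * sg (insert b F0) c = - sg F0 c * sg (insert c F0) b
        calc sg K (insert b F0) c * sg K (insert c F0) b
            = (sg K F0 b * sg K F0 b) * (sg K (insert b F0) c * sg K (insert c F0) b) := by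
              rw [e1, one_mul]
          _ = sg K F0 b * (sg K F0 b * sg K (insert b F0) c) * sg K (insert c F0) b := by ring
          _ = sg K F0 b * (-(sg K F0 c * sg K (insert c F0) b)) * sg K (insert c F0) b := by
              rw [h8]
          _ = -(sg K F0 b * sg K F0 c) * (sg K (insert c F0) b * sg K (insert c F0) b) := by ring
          _ = -(sg K F0 b * sg K F0 c) := by rw [e2, mul_one]
      rw [h10]
      ring
    · rw [Finset.sum_eq_single b]
      · have h1 : b ∈ insert b F := Finset.mem_insert_self b F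
        simp only [h, if_pos h1, Finset.erase_insert hb, sub_add_cancel]
        rw [← mul_assoc, sg_mul_self, one_mul]
      · intro c hc hcb
        have h1 : b ∉ insert c F := by
          simp only [Finset.mem_insert, not_or]
          exact ⟨Ne.symm hcb, hb⟩
        simp only [h, if_neg h1, mul_zero]
      · intro h1
        exact absurd (by simpa using hb) h1
  · rw [DS_apply_notMem hx]
    by_contra hne
    exact hx (hz.1 _ (fun h' => hne h'.symm)).1

end Pool.Agent.H940R2
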