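import Mathlib
import Pool.Agent.H940R2.Koszul
import Pool.Agent.H940R2.Defs

/-!
The chain of isomorphisms relating the Koszul homology of the section ring of `ℙ³ × ℙ¹` and that of
its top local cohomology.
-/

namespace Pool.Agent.H940R2

open Finset




/-- lattice of exponents -/
abbrev Lat := Var → ℤ

/-- numerical properties of the exponent vectors of the monomials of bidegree `(d,d)` -/
structure Expo {ι : Type*} (d : ℤ) (ex : ι → Lat) : Prop where
  dpos : 0 < d
  nonneg : ∀ i c, 0 ≤ ex i c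
  sumx : ∀ i, ∑ a : Fin 4, ex i (Sum.inl a) = d
  sumw : ∀ i, ∑ b : Fin 2, ex i (Sum.inr b) = d
  vert : ∀ (a : Fin 4) (b : Fin 2), ∃ i, (∀ a' : Fin 4, a' ≠ a → ex i (Sum.inl a') = 0) ∧
    (∀ b' : Fin 2, b' ≠ b → ex i (Sum.inr b') = 0)

variable {K ι : Type*} [Field K] [Fintype ι] [LinearOrder ι] {d : ℤ} {ex : ι → Lat}

/-- extension of the exponents to the extra vertex `⊥`, which has exponent `0` -/
def exs (ex : ι → Lat) : WithBot ι → Lat := fun j => WithBot.recBotCoe 0 ex j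

omit [Fintype ι] [LinearOrder ι] in
@[simp] lemma exs_bot : exs ex ⊥ = 0 := rfl
omit [Fintype ι] [LinearOrder ι] in
@[simp] lemma exs_coe (i : ι) : exs ex (i : WithBot ι) = ex i := rfl

omit [Fintype ι] [LinearOrder ι] in
lemma exs_nonneg (h : Expo d ex) (j : WithBot ι) (c : Var) : 0 ≤ exs ex j c := by
  induction j using WithBot.recBotCoe with
  | bot => simp
  | coe i => simpa using h.nonneg i c

/-- the cells of internal degree determined by the strand `t` -/
def Base (ι : Type*) [LinearOrder ι] (d : ℤ) (t : ℤ) : Set (Finset (WithBot ι) × Lat) :=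
  {x | ∑ a : Fin 4, x.2 (Sum.inl a) = (t - (x.1.erase ⊥).card) * d ∧
    ∑ b : Fin 2, x.2 (Sum.inr b) = (t - (x.1.erase ⊥).card) * d}

omit [Fintype ι] in
lemma base_step (h : Expo d ex) (t : ℤ) {F : Finset (WithBot ι)} {u : Lat} {b : WithBot ι}
    (hb : b ∉ F) : (F, u) ∈ Base ι d t ↔ (insert b F, u - exs ex b) ∈ Base ι d t := by
  induction b using WithBot.recBotCoe with
  | bot =>
    have : (insert ⊥ F).erase (⊥ : WithBot ι) = F.erase ⊥ := by
      rw [Finset.erase_insert hb, Finset.erase_eq_of_notMem hb]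
    simp [Base, this]
  | coe i =>
    have h1 : (insert (i : WithBot ι) F).erase (⊥ : WithBot ι) = insert (i : WithBot ι) (F.erase ⊥) := by
      rw [Finset.erase_insert_of_ne]
      simp
    have h2 : (i : WithBot ι) ∉ F.erase ⊥ := by
      simp [hb]
    have h3 : ((insert (i : WithBot ι) F).erase (⊥ : WithBot ι)).card = (F.erase ⊥).card + 1 := by
      rw [h1, Finset.card_insert_of_notMem h2]
    simp only [Base, Set.mem_ofPred_eq, h3, Pi.sub_apply, Finset.sum_sub_distrib, exs_coe, h.sumx,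
      h.sumw]
    push_cast
    constructor
    · rintro ⟨e1, e2⟩
      constructor
      · rw [e1]; ring
      · rw [e2]; ring
    · rintro ⟨e1, e2⟩
      constructor
      · linear_combination e1
      · linear_combination e2

/-- The region: the first `k` of the `x`-exponents are nonnegative, those from `k'` on are
negative; the last condition depends on whether the extra vertex is present. -/
def Rg (ι : Type*) [LinearOrder ι] (d t : ℤ) (k k' : ℕ) : Set (Finset (WithBot ι) × Lat) :=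
  {x | x ∈ Base ι d t ∧ (∀ a : Fin 4, a.val < k → 0 ≤ x.2 (Sum.inl a)) ∧
    (∀ a : Fin 4, k' ≤ a.val → x.2 (Sum.inl a) < 0) ∧
    (⊥ ∈ x.1 → 0 ≤ x.2 (Sum.inr 0)) ∧ (⊥ ∉ x.1 → x.2 (Sum.inr 1) < 0)}

omit [Fintype ι] in
lemma Rg_conv (h : Expo d ex) (t : ℤ) (k k' : ℕ) : Conv (exs ex) (Rg ι d t k k') := by
  intro G u b c hb hc hbc h1 h2
  obtain ⟨b1, x1, y1, p1, q1⟩ := h1
  obtain ⟨b2, x2, y2, p2, q2⟩ := h2
  have nb := exs_nonneg h b
  have nc := exs_nonneg h c
  refine ⟨(base_step h t hb).mp b1, ?_, ?_, ?_, ?_⟩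
  · intro a ha
    have := x2 a ha
    simp only [Pi.sub_apply] at this ⊢
    linarith [nc (Sum.inl a)]
  · intro a ha
    have := y1 a ha
    simp only [Pi.sub_apply] at this ⊢
    linarith [nb (Sum.inl a)]
  · intro hm
    have := p2 (by simp only [Finset.mem_insert] at hm ⊢; tauto)
    simp only [Pi.sub_apply] at this ⊢
    linarith [nc (Sum.inr 0)]
  · intro hm
    simp only [Finset.mem_insert, not_or] at hm
    have := q1 hm.2
    simp only [Pi.sub_apply] at this ⊢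
    linarith [nb (Sum.inr 1)]

/-- criterion for closedness -/
lemma closed_of {J L : Type*} [Fintype J] [LinearOrder J] [AddCommGroup L] {v : J → L}
    {S1 S2 : Set (Finset J × L)}
    (h : ∀ (G : Finset J) (u : L) (b : J), b ∉ G → (G, u) ∈ S2 → (insert b G, u - v b) ∉ S1)
    (f : Finset J × L → K) (hf : ∀ x, f x ≠ 0 → x ∈ S1) (x) (hx : x ∈ S2) : DK K v f x = 0 := by
  obtain ⟨G, u⟩ := x
  rw [DK_apply]
  apply Finset.sum_eq_zero
  intro b hb
  by_contra hne
  exact h G u b (by simpa using hb) hx (hf _ (right_ne_zero_of_mul hne))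

variable (K)

lemma split_flip (h : Expo d ex) (t : ℤ) {k : ℕ} (hk : k < 4) :
    Split (DK K (exs ex)) (Rg ι d t k (k + 1)) (Rg ι d t (k + 1) (k + 1)) (Rg ι d t k k) where
  union := by
    ext x
    constructor
    · rintro ⟨hb, hx, hy, hp, hq⟩
      by_cases h0 : 0 ≤ x.2 (Sum.inl ⟨k, hk⟩)
      · left
        refine ⟨hb, ?_, hy, hp, hq⟩
        intro a ha
        rcases Nat.lt_succ_iff_lt_or_eq.mp ha with h1 | h1
        · exact hx a h1
        · have : a = ⟨k, hk⟩ := Fin.ext h1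
          rw [this]; exact h0
      · right
        refine ⟨hb, hx, ?_, hp, hq⟩
        intro a ha
        rcases Nat.lt_or_eq_of_le ha with h1 | h1
        · exact hy a h1
        · have : a = ⟨k, hk⟩ := Fin.ext h1.symm
          rw [this]; exact not_le.mp h0
    · rintro (⟨hb, hx, hy, hp, hq⟩ | ⟨hb, hx, hy, hp, hq⟩)
      · exact ⟨hb, fun a ha => hx a (by omega), hy, hp, hq⟩
      · exact ⟨hb, hx, fun a ha => hy a (by omega), hp, hq⟩
  disj := by
    rw [Set.disjoint_left]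
    rintro x ⟨_, hx, _⟩ ⟨_, _, hy, _⟩
    have h1 := hx ⟨k, hk⟩ (by simp)
    have h2 := hy ⟨k, hk⟩ (by simp)
    exact absurd h1 (not_le.mpr h2)
  closed := by
    refine closed_of ?_
    intro G u b hb h2 h1
    have e1 := h1.2.1 ⟨k, hk⟩ (by simp)
    have e2 := h2.2.2.1 ⟨k, hk⟩ (by simp)
    simp only [Pi.sub_apply] at e1 e2
    linarith [exs_nonneg h b (Sum.inl ⟨k, hk⟩)]
  good := (Rg_conv h t k (k + 1)).good

lemma mid_ac (h : Expo d ex) (t : ℤ) {k : ℕ} (hk : k < 4) :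
    Ac dg (DK K (exs ex)) (Rg ι d t k (k + 1)) := by
  have hs : Split (DK K (exs ex)) (Rg ι d t k (k + 1))
      {x | x ∈ Rg ι d t k (k + 1) ∧ ⊥ ∉ x.1} {x | x ∈ Rg ι d t k (k + 1) ∧ ⊥ ∈ x.1} :=
    { union := by
        ext x
        by_cases hx : ⊥ ∈ x.1 <;> simp [hx]
      disj := by
        rw [Set.disjoint_left]
        rintro x ⟨_, h1⟩ ⟨_, h2⟩
        exact h1 h2
      closed := by
        refine closed_of ?_
        rintro G u b hb ⟨_, h2⟩ ⟨_, h1⟩
        exact h1 (Finset.mem_insert_of_mem h2)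
      good := (Rg_conv h t k (k + 1)).good }
  refine Ac.of_split (DK_lowers _) hs ?_ ?_
  · obtain ⟨i, hi1, hi2⟩ := h.vert ⟨k, hk⟩ 0
    refine cone_ac _ (i : WithBot ι) ?_
    intro F u hF
    have hw : exs ex (i : WithBot ι) (Sum.inr 1) = 0 := by
      rw [exs_coe]; exact hi2 1 (by decide)
    have hx : ∀ a : Fin 4, a.val ≠ k → exs ex (i : WithBot ι) (Sum.inl a) = 0 := by
      intro a ha
      rw [exs_coe]
      apply hi1
      intro h'
      exact ha (congrArg Fin.val h')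
    have hbot : (⊥ ∈ insert (i : WithBot ι) F) ↔ ⊥ ∈ F := by simp
    simp only [Rg, Set.mem_ofPred_eq, hbot]
    rw [← base_step h t hF]
    simp only [Pi.sub_apply, hw, sub_zero]
    constructor
    · rintro ⟨⟨e1, e2, e3, e4, e5⟩, e6⟩
      refine ⟨⟨e1, ?_, ?_, fun h' => absurd h' e6, e5⟩, e6⟩
      · intro a ha; rw [hx a (by omega), sub_zero]; exact e2 a ha
      · intro a ha; rw [hx a (by omega), sub_zero]; exact e3 a ha
    · rintro ⟨⟨e1, e2, e3, e4, e5⟩, e6⟩
      refine ⟨⟨e1, ?_, ?_, fun h' => absurd h' e6, e5⟩, e6⟩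
      · intro a ha; have := e2 a ha; rw [hx a (by omega), sub_zero] at this; exact this
      · intro a ha; have := e3 a ha; rw [hx a (by omega), sub_zero] at this; exact this
  · obtain ⟨i, hi1, hi2⟩ := h.vert ⟨k, hk⟩ 1
    refine cone_ac _ (i : WithBot ι) ?_
    intro F u hF
    have hw : exs ex (i : WithBot ι) (Sum.inr 0) = 0 := by
      rw [exs_coe]; exact hi2 0 (by decide)
    have hx : ∀ a : Fin 4, a.val ≠ k → exs ex (i : WithBot ι) (Sum.inl a) = 0 := by
      intro a ha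
      rw [exs_coe]
      apply hi1
      intro h'
      exact ha (congrArg Fin.val h')
    have hbot : (⊥ ∈ insert (i : WithBot ι) F) ↔ ⊥ ∈ F := by simp
    simp only [Rg, Set.mem_ofPred_eq, hbot]
    rw [← base_step h t hF]
    simp only [Pi.sub_apply, hw, sub_zero]
    constructor
    · rintro ⟨⟨e1, e2, e3, e4, e5⟩, e6⟩
      refine ⟨⟨e1, ?_, ?_, e4, fun h' => absurd e6 h'⟩, e6⟩
      · intro a ha; rw [hx a (by omega), sub_zero]; exact e2 a ha
      · intro a ha; rw [hx a (by omega), sub_zero]; exact e3 a ha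
    · rintro ⟨⟨e1, e2, e3, e4, e5⟩, e6⟩
      refine ⟨⟨e1, ?_, ?_, e4, fun h' => absurd e6 h'⟩, e6⟩
      · intro a ha; have := e2 a ha; rw [hx a (by omega), sub_zero] at this; exact this
      · intro a ha; have := e3 a ha; rw [hx a (by omega), sub_zero] at this; exact this

lemma IsoH.trans {X : Type*} {deg : X → ℕ} {D : (X → K) →ₗ[K] (X → K)} {S T U : Set X} {a b c : ℕ}
    (h1 : IsoH deg D S a T b) (h2 : IsoH deg D T b U c) : IsoH deg D S a U c := by
  obtain ⟨e⟩ := h1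
  obtain ⟨f⟩ := h2
  exact ⟨e.trans f⟩

lemma IsoH.symm {X : Type*} {deg : X → ℕ} {D : (X → K) →ₗ[K] (X → K)} {S T : Set X} {a b : ℕ}
    (h1 : IsoH deg D S a T b) : IsoH deg D T b S a := by
  obtain ⟨e⟩ := h1
  exact ⟨e.symm⟩

/-- the four flips -/
lemma flips (h : Expo d ex) (t : ℤ) (n : ℕ) :
    IsoH dg (DK K (exs ex)) (Rg ι d t 4 4) n (Rg ι d t 0 0) (n + 4) := by
  have f0 := (split_flip K h t (k := 0) (by norm_num)).flip (DK_lowers _)
    (mid_ac K h t (k := 0) (by norm_num)) (n + 3)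
  have f1 := (split_flip K h t (k := 1) (by norm_num)).flip (DK_lowers _)
    (mid_ac K h t (k := 1) (by norm_num)) (n + 2)
  have f2 := (split_flip K h t (k := 2) (by norm_num)).flip (DK_lowers _)
    (mid_ac K h t (k := 2) (by norm_num)) (n + 1)
  have f3 := (split_flip K h t (k := 3) (by norm_num)).flip (DK_lowers _)
    (mid_ac K h t (k := 3) (by norm_num)) n
  exact (((f0.trans K f1).trans K f2).trans K f3).symm K

/-- the region of the section ring (with the extra vertex present) -/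
def Sin (ι : Type*) [LinearOrder ι] (d t : ℤ) : Set (Finset (WithBot ι) × Lat) :=
  {x | x ∈ Base ι d t ∧ ⊥ ∈ x.1 ∧ ∀ c, 0 ≤ x.2 c}

/-- the region of the top local cohomology -/
def Sout (ι : Type*) [LinearOrder ι] (d t : ℤ) : Set (Finset (WithBot ι) × Lat) :=
  {x | x ∈ Base ι d t ∧ ⊥ ∉ x.1 ∧ ∀ c, x.2 c < 0}

omit [Fintype ι] in
lemma sin_eq (d t : ℤ) : Sin ι d t = {x | x ∈ Rg ι d t 4 4 ∧ (⊥ ∈ x.1 ∧ 0 ≤ x.2 (Sum.inr 1))} := by
  ext x
  constructor
  · rintro ⟨h1, h2, h3⟩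
    exact ⟨⟨h1, fun a _ => h3 _, fun a ha => by omega, fun _ => h3 _, fun h' => absurd h2 h'⟩,
      h2, h3 _⟩
  · rintro ⟨⟨h1, h2, h3, h4, h5⟩, h6, h7⟩
    refine ⟨h1, h6, ?_⟩
    rintro (a | b)
    · exact h2 a a.2
    · fin_cases b
      · exact h4 h6
      · exact h7

omit [Fintype ι] in
lemma sout_eq (d t : ℤ) : Sout ι d t = {x | x ∈ Rg ι d t 0 0 ∧ (⊥ ∉ x.1 ∧ x.2 (Sum.inr 0) < 0)} := by
  ext x
  constructor
  · rintro ⟨h1, h2, h3⟩
    exact ⟨⟨h1, fun a ha => by omega, fun a _ => h3 _, fun h' => absurd h' h2, fun _ => h3 _⟩,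
      h2, h3 _⟩
  · rintro ⟨⟨h1, h2, h3, h4, h5⟩, h6, h7⟩
    refine ⟨h1, h6, ?_⟩
    rintro (a | b)
    · exact h3 a (Nat.zero_le _)
    · fin_cases b
      · exact h7
      · exact h5 h6

lemma split_in (h : Expo d ex) (t : ℤ) :
    Split (DK K (exs ex)) (Rg ι d t 4 4) (Sin ι d t)
      {x | x ∈ Rg ι d t 4 4 ∧ ¬ (⊥ ∈ x.1 ∧ 0 ≤ x.2 (Sum.inr 1))} where
  union := by
    rw [sin_eq]
    ext x
    constructor
    · intro hx
      by_cases h' : (⊥ ∈ x.1 ∧ 0 ≤ x.2 (Sum.inr 1))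
      · exact Or.inl ⟨hx, h'⟩
      · exact Or.inr ⟨hx, h'⟩
    · rintro (h' | h')
      · exact h'.1
      · exact h'.1
  disj := by
    rw [sin_eq, Set.disjoint_left]
    rintro x ⟨_, h1⟩ ⟨_, h2⟩
    exact h2 h1
  closed := by
    rw [sin_eq]
    refine closed_of ?_
    rintro G u b hb ⟨h1, h2⟩ ⟨h3, h4, h5⟩
    simp only [Pi.sub_apply] at h5
    have h6 := exs_nonneg h b (Sum.inr 1)
    by_cases hG : ⊥ ∈ G
    · exact h2 ⟨hG, by simp only; linarith⟩
    · have := h1.2.2.2.2 hG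
      simp only at this
      linarith
  good := (Rg_conv h t 4 4).good

lemma split_in_ac (h : Expo d ex) (t : ℤ) :
    Ac dg (DK K (exs ex)) {x | x ∈ Rg ι d t 4 4 ∧ ¬ (⊥ ∈ x.1 ∧ 0 ≤ x.2 (Sum.inr 1))} := by
  refine cone_ac _ ⊥ ?_
  intro F u hF
  have hb := base_step h t hF (u := u)
  rw [exs_bot, sub_zero] at hb ⊢
  constructor
  · rintro ⟨⟨h1, h2, h3, h4, h5⟩, h6⟩
    have h7 := h5 hF
    simp only at h7 h2
    have hsum : ∑ b : Fin 2, u (Sum.inr b) = ∑ a : Fin 4, u (Sum.inl a) := by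
      rw [h1.1, h1.2]
    have hpos : 0 ≤ ∑ a : Fin 4, u (Sum.inl a) := Finset.sum_nonneg fun a _ => h2 a a.2
    rw [← hsum, Fin.sum_univ_two] at hpos
    refine ⟨⟨hb.mp h1, h2, h3, fun _ => ?_, ?_⟩, ?_⟩
    · simp only
      linarith
    · intro h'
      exact absurd (Finset.mem_insert_self _ _) h'
    · rintro ⟨_, h8⟩
      simp only at h8
      linarith
  · rintro ⟨⟨h1, h2, h3, h4, h5⟩, h6⟩
    simp only [Finset.mem_insert_self, true_and, not_le] at h6
    refine ⟨⟨hb.mpr h1, h2, h3, fun h' => absurd h' hF, fun _ => h6⟩, ?_⟩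
    rintro ⟨h', _⟩
    exact hF h'

lemma split_out (h : Expo d ex) (t : ℤ) :
    Split (DK K (exs ex)) (Rg ι d t 0 0)
      {x | x ∈ Rg ι d t 0 0 ∧ ¬ (⊥ ∉ x.1 ∧ x.2 (Sum.inr 0) < 0)} (Sout ι d t) where
  union := by
    rw [sout_eq]
    ext x
    constructor
    · intro hx
      by_cases h' : (⊥ ∉ x.1 ∧ x.2 (Sum.inr 0) < 0)
      · exact Or.inr ⟨hx, h'⟩
      · exact Or.inl ⟨hx, h'⟩
    · rintro (h' | h')
      · exact h'.1
      · exact h'.1
  disj := by
    rw [sout_eq, Set.disjoint_left]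
    rintro x ⟨_, h1⟩ ⟨_, h2⟩
    exact h1 h2
  closed := by
    rw [sout_eq]
    refine closed_of ?_
    rintro G u b hb ⟨h1, h2, h2'⟩ ⟨h3, h4⟩
    apply h4
    simp only at h2 h2' ⊢
    have h6 := exs_nonneg h b (Sum.inr 0)
    have h8 : (u - exs ex b) (Sum.inr 0) < 0 := by
      rw [Pi.sub_apply]; linarith
    refine ⟨?_, h8⟩
    intro hbot
    have := h3.2.2.2.1 hbot
    simp only at this
    linarith
  good := (Rg_conv h t 0 0).good

lemma split_out_ac (h : Expo d ex) (t : ℤ) :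
    Ac dg (DK K (exs ex)) {x | x ∈ Rg ι d t 0 0 ∧ ¬ (⊥ ∉ x.1 ∧ x.2 (Sum.inr 0) < 0)} := by
  refine cone_ac _ ⊥ ?_
  intro F u hF
  have hb := base_step h t hF (u := u)
  rw [exs_bot, sub_zero] at hb ⊢
  constructor
  · rintro ⟨⟨h1, h2, h3, h4, h5⟩, h6⟩
    simp only at h6
    have h7 : 0 ≤ u (Sum.inr 0) := by
      by_contra h'
      exact h6 ⟨hF, not_le.mp h'⟩
    refine ⟨⟨hb.mp h1, h2, h3, fun _ => h7, ?_⟩, ?_⟩
    · intro h'
      exact absurd (Finset.mem_insert_self _ _) h'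
    · rintro ⟨h8, _⟩
      exact h8 (Finset.mem_insert_self _ _)
  · rintro ⟨⟨h1, h2, h3, h4, h5⟩, h6⟩
    have h7 := h4 (Finset.mem_insert_self _ _)
    simp only at h7
    have h1' := hb.mpr h1
    have hsum : ∑ b : Fin 2, u (Sum.inr b) = ∑ a : Fin 4, u (Sum.inl a) := by
      rw [h1'.1, h1'.2]
    have hneg : ∑ a : Fin 4, u (Sum.inl a) < 0 := by
      rw [Fin.sum_univ_four]
      have g0 := h3 0 (Nat.zero_le _)
      have g1 := h3 1 (Nat.zero_le _)
      have g2 := h3 2 (Nat.zero_le _)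
      have g3 := h3 3 (Nat.zero_le _)
      simp only at g0 g1 g2 g3
      linarith
    rw [← hsum, Fin.sum_univ_two] at hneg
    refine ⟨⟨h1', h2, h3, fun h' => absurd h' hF, fun _ => ?_⟩, ?_⟩
    · simp only
      linarith
    · rintro ⟨_, h'⟩
      simp only at h'
      linarith

/-- The duality isomorphism (combinatorial form). -/
theorem chain (h : Expo d ex) (t : ℤ) (n : ℕ) :
    IsoH dg (DK K (exs ex)) (Sin ι d t) n (Sout ι d t) (n + 4) := by
  have e1 := (split_in K h t).iso1 (DK_lowers _) (split_in_ac K h t) n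
  have e2 := flips K h t n
  have e3 := (split_out K h t).iso2 (DK_lowers _) (split_out_ac K h t) (n + 3)
  exact (e1.trans K e2).trans K e3

end Pool.Agent.H940R2
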