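import Mathlib
import Pool.Agent.H940R2.Chain

/-!
Identification of the Koszul cohomology groups `K_{p,q}` with the homology of a region of cells.
-/

namespace Pool.Agent.H940R2

open MvPolynomial Finset

/-- the exponent vectors of the monomials of bidegree `(d,d)` -/
noncomputable def exd (d : ℕ) : Fin (h0 d) → Lat := fun i c => ((mon d i).1 c : ℤ)

lemma expo_exd {d : ℕ} (hd : 0 < d) : Expo (d : ℤ) (exd d) where
  dpos := by exact_mod_cast hd
  nonneg := fun i c => by simp [exd]
  sumx := fun i => by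
    simp only [exd]
    exact_mod_cast (mon d i).2.1
  sumw := fun i => by
    simp only [exd]
    exact_mod_cast (mon d i).2.2
  vert := by
    intro a b
    let u : Mon d := ⟨Finsupp.single (Sum.inl a) d + Finsupp.single (Sum.inr b) d, by
      constructor
      · simp [Finsupp.single_apply]
      · simp [Finsupp.single_apply]⟩
    refine ⟨(mon d).symm u, ?_, ?_⟩
    · intro a' ha'
      have e : mon d ((mon d).symm u) = u := Equiv.apply_symm_apply _ _
      simp only [exd, e]
      simp [u, Finsupp.single_apply, Ne.symm ha']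
    · intro b' hb'
      have e : mon d ((mon d).symm u) = u := Equiv.apply_symm_apply _ _
      simp only [exd, e]
      simp [u, Finsupp.single_apply, Ne.symm hb']

/-- natural exponents -/
noncomputable def nt (u : Lat) : Var →₀ ℕ := Finsupp.equivFunOnFinite.symm (fun c => (u c).toNat)

@[simp] lemma nt_apply (u : Lat) (c : Var) : nt u c = (u c).toNat := rfl

section updown

variable {ι : Type*} [Fintype ι] [LinearOrder ι]

/-- forget the extra vertex -/
def down (F : Finset (WithBot ι)) : Finset ι := univ.filter (fun i => (i : WithBot ι) ∈ F)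

/-- add the extra vertex -/
def up (F : Finset ι) : Finset (WithBot ι) := insert ⊥ (F.map ⟨(↑), WithBot.coe_injective⟩)

@[simp] lemma mem_down {F : Finset (WithBot ι)} {i : ι} : i ∈ down F ↔ (i : WithBot ι) ∈ F := by
  simp [down]

omit [Fintype ι] in
@[simp] lemma coe_mem_up {F : Finset ι} {i : ι} : (i : WithBot ι) ∈ up F ↔ i ∈ F := by
  simp [up]

omit [Fintype ι] in
@[simp] lemma bot_mem_up {F : Finset ι} : (⊥ : WithBot ι) ∈ up F := by
  simp [up]

@[simp] lemma down_up (F : Finset ι) : down (up F) = F := by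
  ext i
  simp

lemma up_down {F : Finset (WithBot ι)} (h : ⊥ ∈ F) : up (down F) = F := by
  ext j
  induction j using WithBot.recBotCoe with
  | bot => simp [h]
  | coe i => simp

lemma card_down (F : Finset (WithBot ι)) : (F.erase ⊥).card = (down F).card := by
  have : F.erase ⊥ = (down F).map ⟨(↑), WithBot.coe_injective⟩ := by
    ext j
    induction j using WithBot.recBotCoe with
    | bot => simp
    | coe i => simp
  rw [this, Finset.card_map]

lemma card_of_bot {F : Finset (WithBot ι)} (h : ⊥ ∈ F) : F.card = (down F).card + 1 := by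
  rw [← card_down, Finset.card_erase_of_mem h]
  have : 0 < F.card := Finset.card_pos.mpr ⟨_, h⟩
  omega

lemma down_insert (i : ι) (G : Finset (WithBot ι)) : down (insert (i : WithBot ι) G) = insert i (down G) := by
  ext j
  simp

lemma sg_down {K : Type*} [Field K] {G : Finset (WithBot ι)} (h : ⊥ ∈ G) (i : ι) :
    sg K G (i : WithBot ι) = -(-1 : K) ^ ((down G).filter (fun c => c < i)).card := by
  have : (G.filter (fun c => c < (i : WithBot ι))) = up ((down G).filter (fun c => c < i)) := by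
    ext j
    induction j using WithBot.recBotCoe with
    | bot => simp [h, WithBot.bot_lt_coe]
    | coe k => simp
  rw [sg, this, card_of_bot bot_mem_up, down_up, pow_succ]
  ring

lemma sum_compl_of_bot {M : Type*} [AddCommMonoid M] {G : Finset (WithBot ι)} (h : ⊥ ∈ G)
    (φ : WithBot ι → M) : ∑ b ∈ Gᶜ, φ b = ∑ i ∈ (down G)ᶜ, φ (i : WithBot ι) := by
  have : Gᶜ = ((down G)ᶜ).map ⟨(↑), WithBot.coe_injective⟩ := by
    ext j
    induction j using WithBot.recBotCoe with
    | bot => simp [h]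
    | coe k => simp
  rw [this, Finset.sum_map]
  rfl

end updown

open Classical in
/-- passing to coefficients -/
noncomputable def TT (d : ℕ) :
    (Finset (Fin (h0 d)) → Poly) →ₗ[ℂ] (Finset (WithBot (Fin (h0 d))) × Lat → ℂ) where
  toFun f := fun x => if ⊥ ∈ x.1 ∧ ∀ c, 0 ≤ x.2 c then coeff (nt x.2) (f (down x.1)) else 0
  map_add' := by
    intro f g
    funext x
    by_cases h : ⊥ ∈ x.1 ∧ ∀ c, 0 ≤ x.2 c
    · simp only [if_pos h, Pi.add_apply, coeff_add]
    · simp only [if_neg h, Pi.add_apply, add_zero]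
  map_smul' := by
    intro a f
    funext x
    by_cases h : ⊥ ∈ x.1 ∧ ∀ c, 0 ≤ x.2 c
    · simp only [if_pos h, Pi.smul_apply, coeff_smul, RingHom.id_apply]
    · simp only [if_neg h, Pi.smul_apply, smul_zero]

variable {d : ℕ}

lemma TT_pos {f : Finset (Fin (h0 d)) → Poly} {F : Finset (WithBot (Fin (h0 d)))} {u : Lat}
    (h : ⊥ ∈ F ∧ ∀ c, 0 ≤ u c) : TT d f (F, u) = coeff (nt u) (f (down F)) := by
  simp only [TT, LinearMap.coe_mk, AddHom.coe_mk, if_pos h]

lemma TT_neg {f : Finset (Fin (h0 d)) → Poly} {F : Finset (WithBot (Fin (h0 d)))} {u : Lat}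
    (h : ¬ (⊥ ∈ F ∧ ∀ c, 0 ≤ u c)) : TT d f (F, u) = 0 := by
  simp only [TT, LinearMap.coe_mk, AddHom.coe_mk, if_neg h]

/-- integer exponents -/
def zt (u : Var →₀ ℕ) : Lat := fun c => (u c : ℤ)

@[simp] lemma nt_zt (u : Var →₀ ℕ) : nt (zt u) = u := by
  ext c
  simp [zt]

lemma zt_nt {u : Lat} (h : ∀ c, 0 ≤ u c) : zt (nt u) = u := by
  funext c
  simp [zt, h c]

lemma TT_inj : Function.Injective (TT d) := by
  rw [injective_iff_map_eq_zero]
  intro f hf
  funext F
  ext u
  have h1 := congrFun hf (up F, zt u)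
  rw [TT_pos ⟨bot_mem_up, fun c => by simp [zt]⟩, down_up, nt_zt] at h1
  rw [h1]
  simp

lemma kosz_apply (f : Finset (Fin (h0 d)) → Poly) (G : Finset (Fin (h0 d))) :
    kosz d f G = ∑ b ∈ Gᶜ, (-1) ^ (G.filter (fun c => c < b)).card * bas d b * f (insert b G) := rfl

lemma coeff_kosz (f : Finset (Fin (h0 d)) → Poly) (G : Finset (Fin (h0 d))) (u : Var →₀ ℕ) :
    coeff u (kosz d f G) = ∑ b ∈ Gᶜ, (-1 : ℂ) ^ (G.filter (fun c => c < b)).card *
      (if (mon d b).1 ≤ u then coeff (u - (mon d b).1) (f (insert b G)) else 0) := by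
  rw [kosz_apply, coeff_sum]
  refine Finset.sum_congr rfl fun b _ => ?_
  have : ((-1 : Poly) ^ (G.filter (fun c => c < b)).card * bas d b * f (insert b G)) =
      C ((-1 : ℂ) ^ (G.filter (fun c => c < b)).card) * (bas d b * f (insert b G)) := by
    simp [mul_assoc]
  rw [this, coeff_C_mul, bas, coeff_monomial_mul', one_mul]

lemma DK_TT (f : Finset (Fin (h0 d)) → Poly) {G : Finset (WithBot (Fin (h0 d)))} (hG : ⊥ ∈ G)
    (u : Lat) : DK ℂ (exs (exd d)) (TT d f) (G, u) = - TT d (kosz d f) (G, u) := by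
  rw [DK_apply, sum_compl_of_bot hG]
  by_cases hu : ∀ c, 0 ≤ u c
  · rw [TT_pos ⟨hG, hu⟩, coeff_kosz, ← Finset.sum_neg_distrib]
    refine Finset.sum_congr rfl fun i _ => ?_
    rw [sg_down hG, neg_mul, exs_coe]
    congr 2
    have hb : ⊥ ∈ insert (i : WithBot (Fin (h0 d))) G := Finset.mem_insert_of_mem hG
    by_cases h : (mon d i).1 ≤ nt u
    · rw [if_pos h]
      have h' : ∀ c, 0 ≤ (u - exd d i) c := by
        intro c
        have := h c
        rw [nt_apply] at this
        simp only [Pi.sub_apply, exd]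
        have := hu c
        omega
      rw [TT_pos ⟨hb, h'⟩, down_insert]
      congr 1
      ext c
      simp only [nt_apply, Pi.sub_apply, exd, Finsupp.tsub_apply]
      have := hu c
      omega
    · rw [if_neg h, TT_neg]
      rintro ⟨_, h'⟩
      apply h
      intro c
      have := h' c
      simp only [Pi.sub_apply, exd] at this
      rw [nt_apply]
      omega
  · rw [TT_neg (by tauto), neg_zero]
    apply Finset.sum_eq_zero
    intro i _
    rw [TT_neg, mul_zero]
    rintro ⟨_, h'⟩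
    apply hu
    intro c
    have h1 := h' c
    rw [exs_coe] at h1
    simp only [Pi.sub_apply, exd] at h1
    omega

lemma mem_Sec {e : ℤ} {f : Poly} : f ∈ Sec e ↔ ∀ u : Var →₀ ℕ, coeff u f ≠ 0 →
    (∑ a : Fin 4, (u (Sum.inl a) : ℤ)) = e ∧ (∑ b : Fin 2, (u (Sum.inr b) : ℤ)) = e := Iff.rfl

/-- support of the coefficient functions -/
lemma TT_supp {f : Finset (Fin (h0 d)) → Poly} {t : ℤ}
    (hf : ∀ F, f F ∈ Sec ((t - F.card) * d)) (x) (hx : TT d f x ≠ 0) :
    x ∈ Sin (Fin (h0 d)) (d : ℤ) t ∧ f (down x.1) ≠ 0 := by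
  obtain ⟨F, u⟩ := x
  by_cases h : ⊥ ∈ F ∧ ∀ c, 0 ≤ u c
  · rw [TT_pos h] at hx
    have h1 := hf (down F) (nt u) hx
    refine ⟨⟨?_, h.1, h.2⟩, ?_⟩
    · have e : ∀ c, ((nt u c : ℕ) : ℤ) = u c := by
        intro c
        rw [nt_apply]
        exact Int.toNat_of_nonneg (h.2 c)
      simp only [e] at h1
      simp only [Base, Set.mem_ofPred_eq, card_down]
      exact h1
    · intro h0
      simp only at h0
      rw [h0] at hx
      simp at hx
  · exact absurd (TT_neg h) hx

lemma chains_Sec {p : ℕ} {m : ℤ} {f : Finset (Fin (h0 d)) → Poly} (hf : f ∈ chains d p m)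
    (F : Finset (Fin (h0 d))) : f F ∈ Sec (((p + m : ℤ) - F.card) * d) := by
  by_cases h : F.card = p
  · rw [h]
    have : ((p + m : ℤ) - p) = m := by ring
    rw [this]
    exact hf.1 F
  · rw [hf.2 F h]
    exact Submodule.zero_mem _

lemma kosz_Sec {t : ℤ} {f : Finset (Fin (h0 d)) → Poly}
    (hf : ∀ F, f F ∈ Sec ((t - F.card) * d)) (F : Finset (Fin (h0 d))) :
    kosz d f F ∈ Sec ((t - F.card) * d) := by
  rw [mem_Sec]
  intro u hu
  rw [coeff_kosz] at hu
  obtain ⟨b, hb, hb'⟩ := Finset.exists_ne_zero_of_sum_ne_zero hu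
  have h1 := right_ne_zero_of_mul hb'
  by_cases hle : (mon d b).1 ≤ u
  · rw [if_pos hle] at h1
    have h2 := hf _ _ h1
    rw [Finset.card_insert_of_notMem (by simpa using hb)] at h2
    have e : ∀ c, ((u c : ℕ) : ℤ) = (((u - (mon d b).1) c : ℕ) : ℤ) + ((mon d b).1 c : ℤ) := by
      intro c
      have := hle c
      rw [Finsupp.tsub_apply]
      omega
    have e1 : (∑ a : Fin 4, ((mon d b).1 (Sum.inl a) : ℤ)) = d := by
      exact_mod_cast (mon d b).2.1
    have e2 : (∑ a : Fin 2, ((mon d b).1 (Sum.inr a) : ℤ)) = d := by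
      exact_mod_cast (mon d b).2.2
    simp only [e, Finset.sum_add_distrib, e1, e2, h2.1, h2.2]
    push_cast
    constructor <;> ring
  · rw [if_neg hle] at h1
    exact absurd rfl h1

lemma kosz_card {p : ℕ} {f : Finset (Fin (h0 d)) → Poly} (hf : ∀ F, F.card ≠ p + 1 → f F = 0)
    (F : Finset (Fin (h0 d))) (hF : F.card ≠ p) : kosz d f F = 0 := by
  rw [kosz_apply]
  apply Finset.sum_eq_zero
  intro b hb
  rw [hf, mul_zero]
  rw [Finset.card_insert_of_notMem (by simpa using hb)]
  omega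

lemma TT_CC {p : ℕ} {m : ℤ} {f : Finset (Fin (h0 d)) → Poly} (hf : f ∈ chains d p m) :
    TT d f ∈ CC dg (Sin (Fin (h0 d)) (d : ℤ) (p + m)) (p + 1) := by
  intro x hx
  have h1 := TT_supp (fun F => chains_Sec hf F) x hx
  refine ⟨h1.1, ?_⟩
  obtain ⟨F, u⟩ := x
  rw [dg_mk, card_of_bot h1.1.2.1]
  congr 1
  by_contra h
  exact h1.2 (hf.2 _ h)

/-- the differential of the coefficient function -/
lemma DS_TT {t : ℤ} {f : Finset (Fin (h0 d)) → Poly} (hf : ∀ F, f F ∈ Sec ((t - F.card) * d)) :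
    DS (DK ℂ (exs (exd d))) (Sin (Fin (h0 d)) (d : ℤ) t) (TT d f) = - TT d (kosz d f) := by
  funext x
  by_cases hx : x ∈ Sin (Fin (h0 d)) (d : ℤ) t
  · rw [DS_apply_mem hx]
    exact DK_TT f hx.2.1 x.2
  · rw [DS_apply_notMem hx, Pi.neg_apply]
    symm
    rw [neg_eq_zero]
    by_contra h
    exact hx (TT_supp (fun F => kosz_Sec hf F) x h).1

/-- every function on the region comes from polynomials -/
lemma TT_surj {p : ℕ} {m : ℤ} {g : Finset (WithBot (Fin (h0 d))) × Lat → ℂ}
    (hg : g ∈ CC dg (Sin (Fin (h0 d)) (d : ℤ) (p + m)) (p + 1)) :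
    ∃ f ∈ chains d p m, TT d f = g := by
  classical
  let N : Var →₀ ℕ := Finsupp.equivFunOnFinite.symm (fun _ => (m * d).toNat)
  let f : Finset (Fin (h0 d)) → Poly := fun F =>
    ∑ u ∈ Finset.Iic N, monomial u (g (up F, zt u))
  have key : ∀ F : Finset (Fin (h0 d)), ∀ u : Var →₀ ℕ, g (up F, zt u) ≠ 0 →
      ((∑ a : Fin 4, (u (Sum.inl a) : ℤ)) = m * d ∧ (∑ b : Fin 2, (u (Sum.inr b) : ℤ)) = m * d) ∧
        F.card = p := by
    intro F u h
    have h1 := hg _ h
    have h2 : F.card = p := by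
      have := h1.2
      rw [dg_mk, card_of_bot bot_mem_up, down_up] at this
      omega
    refine ⟨?_, h2⟩
    have h3 := h1.1.1
    simp only [Base, Set.mem_ofPred_eq, card_down, down_up, zt, h2] at h3
    have : ((p + m : ℤ) - p) = m := by ring
    rw [this] at h3
    exact h3
  have hcoeff : ∀ F : Finset (Fin (h0 d)), ∀ u : Var →₀ ℕ, coeff u (f F) = g (up F, zt u) := by
    intro F u
    simp only [f, coeff_sum, coeff_monomial]
    rw [Finset.sum_ite_eq']
    split_ifs with h
    · rfl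
    · by_contra hne
      apply h
      rw [Finset.mem_Iic]
      obtain ⟨⟨h1, h2⟩, _⟩ := key F u (fun h' => hne h'.symm)
      intro c
      change u c ≤ (m * d).toNat
      have : (u c : ℤ) ≤ m * d := by
        rcases c with a | b
        · rw [← h1]
          exact Finset.single_le_sum (f := fun a => (u (Sum.inl a) : ℤ))
            (fun _ _ => Int.natCast_nonneg _) (Finset.mem_univ a)
        · rw [← h2]
          exact Finset.single_le_sum (f := fun b => (u (Sum.inr b) : ℤ))
            (fun _ _ => Int.natCast_nonneg _) (Finset.mem_univ b)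
      omega
  refine ⟨f, ⟨?_, ?_⟩, ?_⟩
  · intro F u hu
    rw [hcoeff] at hu
    exact (key F u hu).1
  · intro F hF
    ext u
    rw [hcoeff, coeff_zero]
    by_contra h
    exact hF (key F u h).2
  · funext x
    obtain ⟨F, u⟩ := x
    by_cases h : ⊥ ∈ F ∧ ∀ c, 0 ≤ u c
    · rw [TT_pos h, hcoeff, up_down h.1, zt_nt h.2]
    · rw [TT_neg h]
      by_contra hne
      have h1 := hg _ (fun h' => hne h'.symm)
      exact h ⟨h1.1.2.1, h1.1.2.2⟩

/-- The Koszul cohomology group is the homology of the region `Sin`. -/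
theorem ident (d p : ℕ) (q : ℤ) :
    Nonempty ((cyc d p q ⧸ (bdy d p q).submoduleOf (cyc d p q)) ≃ₗ[ℂ]
      HH dg (DK ℂ (exs (exd d))) (Sin (Fin (h0 d)) (d : ℤ) (p + q)) (p + 1)) := by
  refine quot_equiv _ _ _ _ ((TT d).comp (Submodule.subtype _)) ?_ ?_ ?_
  · rintro ⟨z, hz⟩
    refine mk_ZZ (TT_CC hz.1) ?_
    change DS _ _ (TT d z) = 0
    rw [DS_TT (fun F => chains_Sec hz.1 F), (LinearMap.mem_ker.mp hz.2), map_zero, neg_zero]
  · intro w hw
    obtain ⟨f, hf, rfl⟩ := TT_surj hw.1
    refine ⟨⟨f, hf, ?_⟩, 0, Submodule.zero_mem _, Submodule.zero_mem _, ?_⟩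
    · have h1 := ZZ_eq hw
      rw [DS_TT (fun F => chains_Sec hf F), neg_eq_zero] at h1
      exact LinearMap.mem_ker.mpr (TT_inj (by rw [h1, map_zero]))
    · rw [sub_zero]; rfl
  · rintro ⟨z, hz⟩
    have et : ((p + 1 : ℕ) : ℤ) + (q - 1) = p + q := by push_cast; ring
    constructor
    · rintro ⟨y, hy, hyz⟩
      have hy' : y ∈ CC dg (Sin (Fin (h0 d)) (d : ℤ) (((p + 1 : ℕ) : ℤ) + (q - 1))) ((p + 1) + 1) := by
        rw [et]; exact hy
      obtain ⟨f, hf, rfl⟩ := TT_surj hy'
      have h1 := fun F => chains_Sec hf F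
      rw [et] at h1
      rw [DS_TT h1] at hyz
      refine ⟨-f, Submodule.neg_mem _ hf, ?_⟩
      change kosz d (-f) = z
      apply TT_inj
      rw [map_neg, map_neg]
      exact hyz
    · rintro ⟨f, hf, hfz⟩
      have h1 := fun F => chains_Sec hf F
      rw [et] at h1
      have hy' := TT_CC hf
      rw [et] at hy'
      refine ⟨TT d (-f), ?_, ?_⟩
      · rw [map_neg]
        exact Submodule.neg_mem _ hy'
      · rw [map_neg, map_neg, DS_TT h1, neg_neg]
        change TT d (kosz d f) = TT d z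
        rw [hfz]

/-- `K_{p,q}` as the homology of the region `Sout`. -/
theorem kpq_eq {d : ℕ} (hd : 0 < d) (p : ℕ) (q : ℤ) :
    kpq d p q = Module.finrank ℂ
      (HH dg (DK ℂ (exs (exd d))) (Sout (Fin (h0 d)) (d : ℤ) (p + q)) (p + 5)) := by
  obtain ⟨e1⟩ := ident d p q
  obtain ⟨e2⟩ := chain ℂ (expo_exd hd) ((p : ℤ) + q) (p + 1)
  exact (e1.trans e2).finrank_eq

end Pool.Agent.H940R2
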