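import Mathlib
import Pool.Agent.H940R2.Ident

/-!
Duality: the dimension of the Koszul cohomology group in terms of the module of interior monomials.
-/

namespace Pool.Agent.H940R2

open MvPolynomial Finset

section abstractDual

variable {K X : Type*} [Field K] {deg : X → ℕ} {D : (X → K) →ₗ[K] (X → K)}

/-- the kernel of the transposed operator -/
def DD (deg : X → ℕ) (DT : (X → K) →ₗ[K] (X → K)) (S : Set X) (n : ℕ) : Submodule K (X → K) where
  carrier := {f | f ∈ CC deg S n ∧ ∀ z ∈ S, deg z = n + 1 → DT f z = 0}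
  add_mem' := by
    rintro f g ⟨hf, hf'⟩ ⟨hg, hg'⟩
    refine ⟨Submodule.add_mem _ hf hg, fun z hz hz' => ?_⟩
    rw [map_add, Pi.add_apply, hf' z hz hz', hg' z hz hz', add_zero]
  zero_mem' := ⟨Submodule.zero_mem _, fun z _ _ => by rw [map_zero]; rfl⟩
  smul_mem' := by
    rintro c f ⟨hf, hf'⟩
    refine ⟨Submodule.smul_mem _ c hf, fun z hz hz' => ?_⟩
    rw [map_smul, Pi.smul_apply, hf' z hz hz', smul_zero]

/-- the pairing of functions -/
noncomputable def prg (I : Finset X) (Z : Submodule K (X → K)) : (X → K) →ₗ[K] Module.Dual K Z where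
  toFun l :=
    { toFun := fun w => ∑ x ∈ I, (w : X → K) x * l x
      map_add' := by
        intro w w'
        simp [add_mul, Finset.sum_add_distrib]
      map_smul' := by
        intro c w
        simp [Finset.mul_sum, mul_assoc] }
  map_add' := by
    intro l l'
    ext w
    simp [mul_add, Finset.sum_add_distrib]
  map_smul' := by
    intro c l
    ext w
    simp only [LinearMap.coe_mk, AddHom.coe_mk, Pi.smul_apply, smul_eq_mul, RingHom.id_apply,
      LinearMap.smul_apply, Finset.mul_sum]
    refine Finset.sum_congr rfl fun x _ => ?_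
    ring

lemma prg_apply (I : Finset X) (Z : Submodule K (X → K)) (l : X → K) (w : Z) :
    prg I Z l w = ∑ x ∈ I, (w : X → K) x * l x := rfl

theorem finrank_HH_dual {DT : (X → K) →ₗ[K] (X → K)} {S : Set X} {n : ℕ} (I5 I6 : Finset X)
    (h5 : ∀ x, x ∈ I5 ↔ x ∈ S ∧ deg x = n) (h6 : ∀ x, x ∈ I6 ↔ x ∈ S ∧ deg x = n + 1)
    (hz : ∀ w ∈ CC deg S n, DS D S w = 0)
    (hL : Lowers deg D)
    (hpair : ∀ y l : X → K, (∀ x, y x ≠ 0 → x ∈ I6) → (∀ x, l x ≠ 0 → x ∈ I5) →
      ∑ x ∈ I5, D y x * l x = ∑ z ∈ I6, y z * DT l z) :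
    Module.finrank K (HH deg D S n) = Module.finrank K (DD deg DT S n) := by
  classical
  rw [← Subspace.dual_finrank_eq]
  rw [((BB deg D S n).submoduleOf (ZZ deg D S n)).dualQuotEquivDualAnnihilator.finrank_eq]
  have hDS : ∀ (y : X → K) (l : X → K), (∀ x, y x ≠ 0 → x ∈ I6) → (∀ x, l x ≠ 0 → x ∈ I5) →
      ∑ x ∈ I5, DS D S y x * l x = ∑ z ∈ I6, y z * DT l z := by
    intro y l hy hl
    rw [← hpair y l hy hl]
    refine Finset.sum_congr rfl fun x hx => ?_
    rw [DS_apply_mem ((h5 x).mp hx).1]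
  let Φ : DD deg DT S n →ₗ[K] ((BB deg D S n).submoduleOf (ZZ deg D S n)).dualAnnihilator :=
    ((prg I5 (ZZ deg D S n)).comp (Submodule.subtype _)).codRestrict _ (by
      rintro ⟨l, hl⟩
      rw [Submodule.mem_dualAnnihilator]
      rintro ⟨w, hw⟩ hw'
      obtain ⟨y, hy, hyw⟩ := hw'
      change ∑ x ∈ I5, w x * l x = 0
      change DS D S y = w at hyw
      rw [← hyw, hDS y l (fun x hx => (h6 x).mpr (hy x hx)) (fun x hx => (h5 x).mpr (hl.1 x hx))]
      apply Finset.sum_eq_zero
      intro z hz'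
      rw [hl.2 z ((h6 z).mp hz').1 ((h6 z).mp hz').2, mul_zero])
  have hsingle : ∀ x ∈ I5, (Pi.single x (1 : K) : X → K) ∈ ZZ deg D S n := by
    intro x hx
    have h1 : (Pi.single x (1 : K) : X → K) ∈ CC deg S n := by
      intro x' hx'
      have : x' = x := by
        by_contra h
        apply hx'
        rw [Pi.single_eq_of_ne h]
      rw [this]
      exact (h5 x).mp hx
    exact ⟨h1, hz _ h1⟩
  have hinj : Function.Injective Φ := by
    rw [injective_iff_map_eq_zero]
    rintro ⟨l, hl⟩ h0
    apply Subtype.ext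
    funext x
    by_contra hx
    have hx5 : x ∈ I5 := (h5 x).mpr (hl.1 x hx)
    have h1 : prg I5 (ZZ deg D S n) l = 0 := congrArg Subtype.val h0
    have h2 := LinearMap.congr_fun h1 ⟨_, hsingle x hx5⟩
    rw [prg_apply] at h2
    simp only [LinearMap.zero_apply] at h2
    rw [Finset.sum_eq_single x] at h2
    · rw [Pi.single_eq_same, one_mul] at h2
      exact hx h2
    · intro b _ hb
      rw [Pi.single_eq_of_ne hb, zero_mul]
    · intro h; exact absurd hx5 h
  have hsurj : Function.Surjective Φ := by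
    rintro ⟨φ, hφ⟩
    let l : X → K := fun x => if hx : x ∈ I5 then φ ⟨_, hsingle x hx⟩ else 0
    have hl5 : ∀ x, l x ≠ 0 → x ∈ I5 := by
      intro x hx
      by_contra h
      apply hx
      simp only [l, dif_neg h]
    have hφl : ∀ w : ZZ deg D S n, φ w = ∑ x ∈ I5, (w : X → K) x * l x := by
      intro w
      have e : w = ∑ x ∈ I5.attach, (w : X → K) x.1 •
          (⟨_, hsingle x.1 x.2⟩ : ZZ deg D S n) := by
        apply Subtype.ext
        rw [Submodule.coe_sum]
        funext y
        rw [Finset.sum_apply]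
        simp only [Submodule.coe_smul, Pi.smul_apply, smul_eq_mul]
        by_cases hy : y ∈ I5
        · rw [Finset.sum_eq_single ⟨y, hy⟩]
          · rw [Pi.single_eq_same, mul_one]
          · rintro ⟨b, hb⟩ _ hne
            rw [Pi.single_eq_of_ne, mul_zero]
            intro h
            apply hne
            exact Subtype.ext h.symm
          · intro h; exact absurd (Finset.mem_attach _ _) h
        · have h1 : (w : X → K) y = 0 := by
            by_contra h
            exact hy ((h5 y).mpr (w.2.1 y h))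
          rw [h1]
          symm
          apply Finset.sum_eq_zero
          rintro ⟨b, hb⟩ _
          rw [Pi.single_eq_of_ne, mul_zero]
          intro h
          apply hy
          rw [h]
          exact hb
      conv_lhs => rw [e]
      rw [map_sum, ← Finset.sum_attach I5 (fun x => (w : X → K) x * l x)]
      refine Finset.sum_congr rfl fun x _ => ?_
      rw [map_smul, smul_eq_mul]
      simp only [l, dif_pos x.2]
    have hlD : l ∈ DD deg DT S n := by
      refine ⟨fun x hx => (h5 x).mp (hl5 x hx), ?_⟩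
      intro z hzS hzn
      have hz6 : z ∈ I6 := (h6 z).mpr ⟨hzS, hzn⟩
      have hy6 : ∀ x, (Pi.single z (1 : K) : X → K) x ≠ 0 → x ∈ I6 := by
        intro x hx
        have : x = z := by
          by_contra h
          apply hx
          rw [Pi.single_eq_of_ne h]
        rw [this]; exact hz6
      have h1 := hDS (Pi.single z 1) l hy6 hl5
      rw [Finset.sum_eq_single (s := I6) z] at h1
      · rw [Pi.single_eq_same, one_mul] at h1
        rw [← h1]
        have hyC : (Pi.single z (1 : K) : X → K) ∈ CC deg S (n + 1) :=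
          fun x hx => (h6 x).mp (hy6 x hx)
        have h2 : DS D S (Pi.single z (1 : K)) ∈ CC deg S n := DS_mem_CC hL hyC
        have h3 : DS D S (Pi.single z (1 : K)) ∈ ZZ deg D S n := ⟨h2, hz _ h2⟩
        rw [← hφl ⟨_, h3⟩]
        rw [Submodule.mem_dualAnnihilator] at hφ
        exact hφ _ ⟨_, hyC, rfl⟩
      · intro b _ hb
        rw [Pi.single_eq_of_ne hb, zero_mul]
      · intro h; exact absurd hz6 h
    refine ⟨⟨l, hlD⟩, ?_⟩
    apply Subtype.ext
    apply LinearMap.ext
    intro w
    exact (hφl w).symm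
  exact (LinearEquiv.ofBijective Φ ⟨hinj, hsurj⟩).finrank_eq.symm

end abstractDual

section koszulDual

variable {K J L : Type*} [Field K] [Fintype J] [LinearOrder J] [AddCommGroup L]

variable (K) in
/-- the transposed Koszul differential -/
def DT (v : J → L) : (Finset J × L → K) →ₗ[K] (Finset J × L → K) where
  toFun f := fun x => ∑ b ∈ x.1, sg K (x.1.erase b) b * f (x.1.erase b, x.2 + v b)
  map_add' := by
    intro f g
    funext x
    simp [mul_add, Finset.sum_add_distrib]
  map_smul' := by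
    intro c f
    funext x
    simp only [Pi.smul_apply, smul_eq_mul, RingHom.id_apply, Finset.mul_sum]
    refine Finset.sum_congr rfl fun b _ => ?_
    ring

omit [Fintype J] in
lemma DT_apply (v : J → L) (f : Finset J × L → K) (F : Finset J) (w : L) :
    DT K v f (F, w) = ∑ b ∈ F, sg K (F.erase b) b * f (F.erase b, w + v b) := rfl

lemma DK_pair (v : J → L) (I5 I6 : Finset (Finset J × L)) (y l : Finset J × L → K)
    (hy : ∀ x, y x ≠ 0 → x ∈ I6) (hl : ∀ x, l x ≠ 0 → x ∈ I5) :
    ∑ x ∈ I5, DK K v y x * l x = ∑ z ∈ I6, y z * DT K v l z := by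
  have e1 : ∑ x ∈ I5, DK K v y x * l x =
      ∑ p ∈ I5.sigma (fun x => x.1ᶜ),
        (sg K p.1.1 p.2 * y (insert p.2 p.1.1, p.1.2 - v p.2)) * l p.1 := by
    rw [Finset.sum_sigma]
    refine Finset.sum_congr rfl fun x _ => ?_
    obtain ⟨G, u⟩ := x
    rw [DK_apply, Finset.sum_mul]
  have e2 : ∑ z ∈ I6, y z * DT K v l z =
      ∑ p ∈ I6.sigma (fun z => z.1),
        y p.1 * (sg K (p.1.1.erase p.2) p.2 * l (p.1.1.erase p.2, p.1.2 + v p.2)) := by
    rw [Finset.sum_sigma]
    refine Finset.sum_congr rfl fun x _ => ?_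
    obtain ⟨G, u⟩ := x
    rw [DT_apply, Finset.mul_sum]
  rw [e1, e2]
  refine Finset.sum_bij_ne_zero
    (fun p _ _ => ⟨(insert p.2 p.1.1, p.1.2 - v p.2), p.2⟩) ?_ ?_ ?_ ?_
  · rintro ⟨⟨G, u⟩, b⟩ h1 h2
    simp only [Finset.mem_sigma, Finset.mem_compl] at h1 h2 ⊢
    exact ⟨hy _ (right_ne_zero_of_mul (left_ne_zero_of_mul h2)), Finset.mem_insert_self _ _⟩
  · rintro ⟨⟨G, u⟩, b⟩ h1 h2 ⟨⟨G', u'⟩, b'⟩ h1' h2' he
    simp only [Finset.mem_sigma, Finset.mem_compl] at h1 h1'
    simp only [Sigma.mk.injEq, Prod.mk.injEq, heq_eq_eq] at he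
    obtain ⟨⟨e3, e4⟩, rfl⟩ := he
    have e5 : G = G' := by
      rw [← Finset.erase_insert h1.2, e3, Finset.erase_insert h1'.2]
    have e6 : u = u' := by
      have := sub_left_injective e4
      exact this
    rw [e5, e6]
  · rintro ⟨⟨F, w⟩, b⟩ h1 h2
    simp only [Finset.mem_sigma] at h1 h2
    have e3 : insert b (F.erase b) = F := Finset.insert_erase h1.2
    have e4 : w + v b - v b = w := add_sub_cancel_right _ _
    refine ⟨⟨(F.erase b, w + v b), b⟩, ?_, ?_, ?_⟩
    · simp only [Finset.mem_sigma, Finset.mem_compl]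
      exact ⟨hl _ (right_ne_zero_of_mul (right_ne_zero_of_mul h2)), Finset.notMem_erase _ _⟩
    · simp only [e3, e4]
      intro h
      apply h2
      rw [← h]
      ring
    · simp only [e3, e4]
  · rintro ⟨⟨G, u⟩, b⟩ h1 h2
    simp only [Finset.mem_sigma, Finset.mem_compl] at h1
    simp only [Finset.erase_insert h1.2, sub_add_cancel]
    ring

end koszulDual

end Pool.Agent.H940R2
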