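import Mathlib
import Pool.Agent.H940R2.Dual

/-!
The Koszul cohomology group `K_{p,4}` in terms of the module of interior monomials.
-/

namespace Pool.Agent.H940R2

open MvPolynomial Finset

/-- polynomials of bidegree `(d,d)` all of whose monomials have only positive exponents -/
def M0 (d : ℕ) : Submodule ℂ Poly where
  carrier := {f | ∀ u : Var →₀ ℕ, coeff u f ≠ 0 →
    ((∑ a : Fin 4, u (Sum.inl a)) = d ∧ (∑ b : Fin 2, u (Sum.inr b)) = d) ∧ ∀ c, 1 ≤ u c}
  add_mem' := by
    intro f g hf hg u hu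
    rw [coeff_add] at hu
    by_cases h : coeff u f = 0
    · exact hg u (by intro h'; exact hu (by rw [h, h', add_zero]))
    · exact hf u h
  zero_mem' := by
    intro u hu
    exact absurd (coeff_zero u) hu
  smul_mem' := by
    intro c f hf u hu
    rw [coeff_smul] at hu
    exact hf u (by intro h'; exact hu (by rw [h', smul_zero]))

/-- the cycles with values in `M0` -/
noncomputable def KK (d p : ℕ) : Submodule ℂ (Finset (Fin (h0 d)) → Poly) where
  carrier := {f | (∀ B, f B ∈ M0 d) ∧ (∀ B, B.card ≠ p → f B = 0) ∧ kosz d f = 0}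
  add_mem' := by
    rintro f g ⟨hf, hf', hf''⟩ ⟨hg, hg', hg''⟩
    refine ⟨fun F => Submodule.add_mem _ (hf F) (hg F), fun F hF => ?_, ?_⟩
    · rw [Pi.add_apply, hf' F hF, hg' F hF, add_zero]
    · rw [map_add, hf'', hg'', add_zero]
  zero_mem' := ⟨fun F => Submodule.zero_mem _, fun F _ => rfl, map_zero _⟩
  smul_mem' := by
    rintro c f ⟨hf, hf', hf''⟩
    refine ⟨fun F => Submodule.smul_mem _ c (hf F), fun F hF => ?_, ?_⟩
    · rw [Pi.smul_apply, hf' F hF, smul_zero]
    · rw [map_smul, hf'', smul_zero]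

variable {d : ℕ}

/-- total rank sign of an index -/
noncomputable def rk (i : Fin (h0 d)) : ℂ := (-1) ^ (univ.filter (fun c => c < i)).card

lemma rk_mul_self (i : Fin (h0 d)) : rk i * rk i = 1 := by
  rw [rk, ← pow_add, ← two_mul, pow_mul]
  simp

/-- the sign of a set -/
noncomputable def ep (F : Finset (Fin (h0 d))) : ℂ := ∏ i ∈ F, rk i

lemma ep_mul_self (F : Finset (Fin (h0 d))) : ep F * ep F = 1 := by
  rw [ep, ← Finset.prod_mul_distrib]
  exact Finset.prod_eq_one fun i _ => rk_mul_self i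

lemma ep_erase {F : Finset (Fin (h0 d))} {i : Fin (h0 d)} (hi : i ∈ F) :
    ep (F.erase i) = ep F * rk i := by
  have h : ep F = rk i * ep (F.erase i) := by
    rw [ep, ep, Finset.mul_prod_erase _ _ hi]
  rw [h, mul_comm (rk i), mul_assoc, rk_mul_self, mul_one]

lemma rk_split (A : Finset (Fin (h0 d))) (i : Fin (h0 d)) :
    (-1 : ℂ) ^ (Aᶜ.filter (fun c => c < i)).card * rk i = (-1 : ℂ) ^ (A.filter (fun c => c < i)).card := by
  have h : (univ.filter (fun c => c < i)).card =
      (A.filter (fun c => c < i)).card + (Aᶜ.filter (fun c => c < i)).card := by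
    rw [← Finset.card_union_of_disjoint]
    · congr 1
      ext c
      simp only [Finset.mem_filter, Finset.mem_univ, true_and, Finset.mem_union, Finset.mem_compl]
      tauto
    · rw [Finset.disjoint_left]
      intro c hc hc'
      simp only [Finset.mem_filter, Finset.mem_compl] at hc hc'
      exact hc'.1 hc.1
  rw [rk, h, pow_add]
  have h2 : (-1 : ℂ) ^ (Aᶜ.filter (fun c => c < i)).card * (-1 : ℂ) ^ (Aᶜ.filter (fun c => c < i)).card = 1 := by
    rw [← pow_add, ← two_mul, pow_mul]
    simp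
  linear_combination (-1 : ℂ) ^ (A.filter (fun c => c < i)).card * h2

/-- the set of (non-extra) vertices of a face, without the extra vertex -/
def upc {ι : Type*} (F : Finset ι) : Finset (WithBot ι) := F.map ⟨(↑), WithBot.coe_injective⟩

@[simp] lemma coe_mem_upc {ι : Type*} {F : Finset ι} {i : ι} : (i : WithBot ι) ∈ upc F ↔ i ∈ F := by
  simp [upc]

@[simp] lemma bot_mem_upc {ι : Type*} {F : Finset ι} : (⊥ : WithBot ι) ∉ upc F := by
  simp [upc]

@[simp] lemma down_upc {ι : Type*} [Fintype ι] [LinearOrder ι] (F : Finset ι) : down (upc F) = F := by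
  ext i
  simp

lemma upc_down {ι : Type*} [Fintype ι] [LinearOrder ι] {F : Finset (WithBot ι)} (h : ⊥ ∉ F) :
    upc (down F) = F := by
  ext j
  induction j using WithBot.recBotCoe with
  | bot => simp [h]
  | coe i => simp

@[simp] lemma card_upc {ι : Type*} (F : Finset ι) : (upc F).card = F.card := by
  simp [upc]

open Classical in
/-- passing to coefficients and complements -/
noncomputable def PP (d : ℕ) :
    (Finset (Fin (h0 d)) → Poly) →ₗ[ℂ] (Finset (WithBot (Fin (h0 d))) × Lat → ℂ) where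
  toFun f := fun x => if ⊥ ∉ x.1 ∧ ∀ c, 0 ≤ (-x.2) c then
    ep (down x.1) * coeff (nt (-x.2)) (f (down x.1)ᶜ) else 0
  map_add' := by
    intro f g
    funext x
    by_cases h : ⊥ ∉ x.1 ∧ ∀ c, 0 ≤ (-x.2) c
    · simp only [if_pos h, Pi.add_apply, coeff_add, mul_add]
    · simp only [if_neg h, Pi.add_apply, add_zero]
  map_smul' := by
    intro a f
    funext x
    by_cases h : ⊥ ∉ x.1 ∧ ∀ c, 0 ≤ (-x.2) c
    · simp only [if_pos h, Pi.smul_apply, coeff_smul, RingHom.id_apply, smul_eq_mul]
      ring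
    · simp only [if_neg h, Pi.smul_apply, smul_zero]

lemma PP_pos {f : Finset (Fin (h0 d)) → Poly} {F : Finset (WithBot (Fin (h0 d)))} {u : Lat}
    (h : ⊥ ∉ F ∧ ∀ c, 0 ≤ (-u) c) : PP d f (F, u) = ep (down F) * coeff (nt (-u)) (f (down F)ᶜ) := by
  simp only [PP, LinearMap.coe_mk, AddHom.coe_mk, if_pos h]

lemma PP_neg {f : Finset (Fin (h0 d)) → Poly} {F : Finset (WithBot (Fin (h0 d)))} {u : Lat}
    (h : ¬ (⊥ ∉ F ∧ ∀ c, 0 ≤ (-u) c)) : PP d f (F, u) = 0 := by
  simp only [PP, LinearMap.coe_mk, AddHom.coe_mk, if_neg h]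

lemma ep_ne_zero (F : Finset (Fin (h0 d))) : ep F ≠ 0 := by
  intro h
  have := ep_mul_self F
  rw [h] at this
  simp at this

lemma PP_inj : Function.Injective (PP d) := by
  rw [injective_iff_map_eq_zero]
  intro f hf
  funext B
  ext u
  have h1 := congrFun hf (upc Bᶜ, -zt u)
  rw [PP_pos ⟨bot_mem_upc, fun c => by simp [zt]⟩, down_upc, compl_compl, neg_neg, nt_zt] at h1
  rw [Pi.zero_apply, coeff_zero]
  exact (mul_eq_zero.mp h1).resolve_left (ep_ne_zero _)

lemma sg_erase_down {F : Finset (WithBot (Fin (h0 d)))} (hF : ⊥ ∉ F) (i : Fin (h0 d)) :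
    sg ℂ (F.erase (i : WithBot (Fin (h0 d)))) (i : WithBot (Fin (h0 d))) =
      (-1 : ℂ) ^ ((down F).filter (fun c => c < i)).card := by
  have : ((F.erase (i : WithBot (Fin (h0 d)))).filter (fun c => c < (i : WithBot (Fin (h0 d))))) =
      upc ((down F).filter (fun c => c < i)) := by
    ext j
    induction j using WithBot.recBotCoe with
    | bot => simp [hF]
    | coe k =>
      simp only [Finset.mem_filter, Finset.mem_erase, coe_mem_upc, mem_down, ne_eq,
        WithBot.coe_inj, WithBot.coe_lt_coe]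
      constructor
      · rintro ⟨⟨h1, h2⟩, h3⟩
        exact ⟨h2, h3⟩
      · rintro ⟨h2, h3⟩
        exact ⟨⟨ne_of_lt h3, h2⟩, h3⟩
  rw [sg, this, card_upc]

lemma down_erase (F : Finset (WithBot (Fin (h0 d)))) (i : Fin (h0 d)) :
    down (F.erase (i : WithBot (Fin (h0 d)))) = (down F).erase i := by
  ext j
  simp

lemma DT_PP (f : Finset (Fin (h0 d)) → Poly) {F : Finset (WithBot (Fin (h0 d)))} (hF : ⊥ ∉ F)
    {w : Lat} (hw : ∀ c, 0 ≤ (-w) c) : DT ℂ (exs (exd d)) (PP d f) (F, w) =
      ep (down F) * coeff (nt (-w)) (kosz d f (down F)ᶜ) := by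
  have hF' : F = upc (down F) := (upc_down hF).symm
  have e1 : DT ℂ (exs (exd d)) (PP d f) (F, w) =
      ∑ i ∈ down F, sg ℂ (F.erase (i : WithBot (Fin (h0 d)))) (i : WithBot (Fin (h0 d))) *
        PP d f (F.erase (i : WithBot (Fin (h0 d))), w + exd d i) := by
    rw [DT_apply]
    conv_lhs => rw [← upc_down hF]
    rw [upc, Finset.sum_map]
    simp only [Function.Embedding.coeFn_mk, exs_coe]
    refine Finset.sum_congr rfl fun i _ => ?_
    have e2 : (down F).map ⟨(↑), WithBot.coe_injective⟩ = F := upc_down hF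
    rw [e2]
  rw [e1, coeff_kosz, compl_compl, Finset.mul_sum]
  refine Finset.sum_congr rfl fun i hi => ?_
  rw [sg_erase_down hF]
  have hb : ⊥ ∉ F.erase (i : WithBot (Fin (h0 d))) := fun h => hF (Finset.mem_of_mem_erase h)
  by_cases h : (mon d i).1 ≤ nt (-w)
  · rw [if_pos h]
    have h' : ∀ c, 0 ≤ (-(w + exd d i)) c := by
      intro c
      have h1 := h c
      rw [nt_apply] at h1
      have h2 := hw c
      simp only [Pi.neg_apply, Pi.add_apply, exd] at h1 h2 ⊢
      omega
    rw [PP_pos ⟨hb, h'⟩, down_erase, ep_erase hi]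
    have e3 : ((down F).erase i)ᶜ = insert i (down F)ᶜ := by
      rw [Finset.compl_erase]
    have e4 : nt (-(w + exd d i)) = nt (-w) - (mon d i).1 := by
      ext c
      have h1 := h c
      rw [nt_apply] at h1
      have h2 := hw c
      simp only [nt_apply, Pi.neg_apply, Pi.add_apply, exd, Finsupp.tsub_apply] at h1 h2 ⊢
      omega
    rw [e3, e4]
    have e5 := rk_split (down F)ᶜ i
    rw [compl_compl] at e5
    rw [← e5]
    ring
  · rw [if_neg h, PP_neg, mul_zero, mul_zero, mul_zero]
    rintro ⟨_, h'⟩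
    apply h
    intro c
    have h1 := h' c
    have h2 := hw c
    simp only [Pi.neg_apply, Pi.add_apply, exd] at h1 h2
    rw [nt_apply, Pi.neg_apply]
    omega

lemma mem_M0 {f : Poly} : f ∈ M0 d ↔ ∀ u : Var →₀ ℕ, coeff u f ≠ 0 →
    ((∑ a : Fin 4, u (Sum.inl a)) = d ∧ (∑ b : Fin 2, u (Sum.inr b)) = d) ∧ ∀ c, 1 ≤ u c := Iff.rfl

variable {p p' : ℕ}

lemma PP_mem (h : p + 5 + p' = h0 d) {f : Finset (Fin (h0 d)) → Poly} (hf : f ∈ KK d p') :
    PP d f ∈ DD dg (DT ℂ (exs (exd d))) (Sout (Fin (h0 d)) (d : ℤ) (p + 4)) (p + 5) := by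
  constructor
  · rintro ⟨G, u⟩ hx
    by_cases hc : ⊥ ∉ G ∧ ∀ c, 0 ≤ (-u) c
    · rw [PP_pos hc] at hx
      have h1 := right_ne_zero_of_mul hx
      have h2 : ((down G)ᶜ).card = p' := by
        by_contra h3
        rw [hf.2.1 _ h3, coeff_zero] at h1
        exact h1 rfl
      have h3 : (down G).card = p + 5 := by
        rw [Finset.card_compl, Fintype.card_fin] at h2
        have := Finset.card_le_univ (down G)
        rw [Fintype.card_fin] at this
        omega
      have h4 := hf.1 _ _ h1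
      have e : ∀ c, u c = - ((nt (-u) c : ℕ) : ℤ) := by
        intro c
        rw [nt_apply, Int.toNat_of_nonneg (hc.2 c)]
        simp
      refine ⟨⟨?_, hc.1, ?_⟩, ?_⟩
      · simp only [Base, Set.mem_ofPred_eq, card_down, h3]
        simp only [e, Finset.sum_neg_distrib]
        rw [← Nat.cast_sum, ← Nat.cast_sum, h4.1.1, h4.1.2]
        push_cast
        constructor <;> ring
      · intro c
        have := h4.2 c
        rw [nt_apply] at this
        simp only [Pi.neg_apply] at this ⊢
        omega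
      · rw [dg_mk, ← Finset.erase_eq_of_notMem hc.1, card_down, h3]
    · exact absurd (PP_neg hc) hx
  · rintro ⟨F, w⟩ hz _
    rw [DT_PP f hz.2.1, hf.2.2]
    · simp
    · intro c
      have := hz.2.2 c
      simp only [Pi.neg_apply] at this ⊢
      omega

lemma PP_surj (h : p + 5 + p' = h0 d) {l : Finset (WithBot (Fin (h0 d))) × Lat → ℂ}
    (hl : l ∈ DD dg (DT ℂ (exs (exd d))) (Sout (Fin (h0 d)) (d : ℤ) (p + 4)) (p + 5)) :
    ∃ f ∈ KK d p', PP d f = l := by
  classical
  let N : Var →₀ ℕ := Finsupp.equivFunOnFinite.symm (fun _ => d)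
  let f : Finset (Fin (h0 d)) → Poly := fun B =>
    ∑ u ∈ Finset.Iic N, monomial u (ep Bᶜ * l (upc Bᶜ, -zt u))
  have key : ∀ B : Finset (Fin (h0 d)), ∀ u : Var →₀ ℕ, l (upc Bᶜ, -zt u) ≠ 0 →
      (((∑ a : Fin 4, u (Sum.inl a)) = d ∧ (∑ b : Fin 2, u (Sum.inr b)) = d) ∧ ∀ c, 1 ≤ u c) ∧
        B.card = p' := by
    intro B u hne
    have h1 := hl.1 _ hne
    have h2 : (Bᶜ).card = p + 5 := by
      have := h1.2
      rwa [dg_mk, card_upc] at this
    have h2' : B.card = p' := by
      rw [Finset.card_compl, Fintype.card_fin] at h2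
      have := Finset.card_le_univ B
      rw [Fintype.card_fin] at this
      omega
    refine ⟨⟨?_, ?_⟩, h2'⟩
    · have h3 := h1.1.1
      simp only [Base, Set.mem_ofPred_eq, card_down, down_upc, zt, h2, Pi.neg_apply,
        Finset.sum_neg_distrib] at h3
      push_cast at h3
      constructor
      · zify
        linear_combination -h3.1
      · zify
        linear_combination -h3.2
    · intro c
      have := h1.1.2.2 c
      simp only [zt, Pi.neg_apply] at this
      omega
  have hcoeff : ∀ B : Finset (Fin (h0 d)), ∀ u : Var →₀ ℕ,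
      coeff u (f B) = ep Bᶜ * l (upc Bᶜ, -zt u) := by
    intro F u
    simp only [f, coeff_sum, coeff_monomial]
    rw [Finset.sum_ite_eq']
    split_ifs with h
    · rfl
    · by_contra hne
      apply h
      rw [Finset.mem_Iic]
      obtain ⟨⟨⟨h1, h2⟩, _⟩, _⟩ := key F u (fun h' => hne (by rw [h', mul_zero]))
      intro c
      change u c ≤ d
      rcases c with a | b
      · rw [← h1]
        exact Finset.single_le_sum (f := fun a => (u (Sum.inl a)))
          (fun _ _ => Nat.zero_le _) (Finset.mem_univ a)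
      · rw [← h2]
        exact Finset.single_le_sum (f := fun b => (u (Sum.inr b)))
          (fun _ _ => Nat.zero_le _) (Finset.mem_univ b)
  have hPP : PP d f = l := by
    funext x
    obtain ⟨G, u⟩ := x
    by_cases hc : ⊥ ∉ G ∧ ∀ c, 0 ≤ (-u) c
    · rw [PP_pos hc, hcoeff, compl_compl, zt_nt hc.2, neg_neg, upc_down hc.1, ← mul_assoc,
        ep_mul_self, one_mul]
    · rw [PP_neg hc]
      by_contra hne
      have h1 := hl.1 _ (fun h' => hne h'.symm)
      exact hc ⟨h1.1.2.1, fun c => by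
        have := h1.1.2.2 c
        simp only [Pi.neg_apply] at this ⊢
        omega⟩
  have hM0 : ∀ B, f B ∈ M0 d := by
    intro B u hu
    rw [hcoeff] at hu
    exact (key B u (right_ne_zero_of_mul hu)).1
  have hcard : ∀ B, B.card ≠ p' → f B = 0 := by
    intro B hB
    ext u
    rw [hcoeff, coeff_zero]
    by_contra hne
    exact hB (key B u (right_ne_zero_of_mul hne)).2
  refine ⟨f, ⟨hM0, hcard, ?_⟩, hPP⟩
  funext A
  ext u
  rw [Pi.zero_apply, coeff_zero]
  by_contra hne
  have h1 := DT_PP f (F := upc Aᶜ) bot_mem_upc (w := -zt u) (fun c => by simp [zt])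
  rw [down_upc, compl_compl, neg_neg, nt_zt, hPP] at h1
  have h2 : DT ℂ (exs (exd d)) l (upc Aᶜ, -zt u) ≠ 0 := by
    rw [h1]
    exact mul_ne_zero (ep_ne_zero _) hne
  apply h2
  rw [coeff_kosz] at hne
  obtain ⟨b, hb, hb'⟩ := Finset.exists_ne_zero_of_sum_ne_zero hne
  have h3 := right_ne_zero_of_mul hb'
  by_cases hle : (mon d b).1 ≤ u
  · rw [if_pos hle] at h3
    have h4 := hM0 _ _ h3
    have h5 : (insert b A).card = p' := by
      by_contra h6
      rw [hcard _ h6, coeff_zero] at h3
      exact h3 rfl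
    rw [Finset.card_insert_of_notMem (by simpa using hb)] at h5
    have h6 : (Aᶜ).card = p + 5 + 1 := by
      rw [Finset.card_compl, Fintype.card_fin]
      have := Finset.card_le_univ A
      rw [Fintype.card_fin] at this
      omega
    apply hl.2
    · refine ⟨?_, bot_mem_upc, ?_⟩
      · simp only [Base, Set.mem_ofPred_eq, card_down, down_upc, zt, h6, Pi.neg_apply,
          Finset.sum_neg_distrib]
        have e : ∀ c, ((u c : ℕ) : ℤ) = (((u - (mon d b).1) c : ℕ) : ℤ) + ((mon d b).1 c : ℤ) := by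
          intro c
          have := hle c
          rw [Finsupp.tsub_apply]
          omega
        have e1 : (∑ a : Fin 4, ((mon d b).1 (Sum.inl a) : ℤ)) = d := by
          exact_mod_cast (mon d b).2.1
        have e2 : (∑ a : Fin 2, ((mon d b).1 (Sum.inr a) : ℤ)) = d := by
          exact_mod_cast (mon d b).2.2
        have e3 : (∑ a : Fin 4, (((u - (mon d b).1) (Sum.inl a) : ℕ) : ℤ)) = d := by
          exact_mod_cast h4.1.1
        have e4 : (∑ a : Fin 2, (((u - (mon d b).1) (Sum.inr a) : ℕ) : ℤ)) = d := by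
          exact_mod_cast h4.1.2
        simp only [e, Finset.sum_add_distrib, e1, e2, e3, e4]
        push_cast
        constructor <;> ring
      · intro c
        have := h4.2 c
        rw [Finsupp.tsub_apply] at this
        simp only [zt, Pi.neg_apply]
        omega
    · rw [dg_mk, card_upc, h6]
  · rw [if_neg hle] at h3
    exact absurd rfl h3

lemma sout_finite (hd : 0 < d) (t : ℤ) :
    (Sout (Fin (h0 d)) (d : ℤ) t).Finite := by
  have h1 : (Sout (Fin (h0 d)) (d : ℤ) t) ⊆
      ⋃ F : Finset (WithBot (Fin (h0 d))),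
        ({F} : Set _) ×ˢ (Set.Icc (fun _ => (t - (F.erase ⊥).card) * d) (fun _ => 0) : Set Lat) := by
    rintro ⟨F, u⟩ hx
    rw [Set.mem_iUnion]
    refine ⟨F, rfl, ?_, ?_⟩
    · intro c
      obtain ⟨⟨h1, h2⟩, _, h3⟩ := hx
      simp only at h1 h2 h3
      rcases c with a | b
      · change (t - (F.erase ⊥).card) * (d : ℤ) ≤ u (Sum.inl a)
        rw [← h1]
        have := Finset.sum_le_sum_of_subset_of_nonneg (f := fun a => -u (Sum.inl a))
          (Finset.subset_univ {a}) (fun i _ _ => by have := h3 (Sum.inl i); omega)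
        rw [Finset.sum_singleton, Finset.sum_neg_distrib] at this
        omega
      · change (t - (F.erase ⊥).card) * (d : ℤ) ≤ u (Sum.inr b)
        rw [← h2]
        have := Finset.sum_le_sum_of_subset_of_nonneg (f := fun a => -u (Sum.inr a))
          (Finset.subset_univ {b}) (fun i _ _ => by have := h3 (Sum.inr i); omega)
        rw [Finset.sum_singleton, Finset.sum_neg_distrib] at this
        omega
    · intro c
      have := hx.2.2 c
      simp only at this ⊢
      omega
  refine Set.Finite.subset ?_ h1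
  refine Set.finite_iUnion fun F => ?_
  exact Set.Finite.prod (Set.finite_singleton F) (Set.finite_Icc _ _)

/-- `K_{p,4}` in terms of the module of interior monomials. -/
theorem kpq_eq_KK (hd : 0 < d) (h : p + 5 + p' = h0 d) :
    kpq d p 4 = Module.finrank ℂ (KK d p') := by
  classical
  rw [kpq_eq hd]
  have hfin := sout_finite hd ((p : ℤ) + 4)
  have hf5 : {x | x ∈ Sout (Fin (h0 d)) (d : ℤ) (p + 4) ∧ dg x = p + 5}.Finite :=
    hfin.subset (fun x hx => hx.1)
  have hf6 : {x | x ∈ Sout (Fin (h0 d)) (d : ℤ) (p + 4) ∧ dg x = p + 5 + 1}.Finite :=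
    hfin.subset (fun x hx => hx.1)
  rw [finrank_HH_dual (DT := DT ℂ (exs (exd d))) hf5.toFinset hf6.toFinset (by simp) (by simp)
    ?_ (DK_lowers _) ?_]
  · let Φ : KK d p' →ₗ[ℂ] DD dg (DT ℂ (exs (exd d))) (Sout (Fin (h0 d)) (d : ℤ) (p + 4)) (p + 5) :=
      ((PP d).comp (Submodule.subtype _)).codRestrict _ (fun f => PP_mem h f.2)
    have hinj : Function.Injective Φ := by
      intro f g hfg
      apply Subtype.ext
      exact PP_inj (congrArg Subtype.val hfg)
    have hsurj : Function.Surjective Φ := by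
      rintro ⟨l, hl⟩
      obtain ⟨f, hf, hfl⟩ := PP_surj h hl
      exact ⟨⟨f, hf⟩, Subtype.ext hfl⟩
    exact (LinearEquiv.ofBijective Φ ⟨hinj, hsurj⟩).finrank_eq.symm
  · intro w hw
    have h1 : DS (DK ℂ (exs (exd d))) (Sout (Fin (h0 d)) (d : ℤ) (p + 4)) w ∈
        CC dg (Sout (Fin (h0 d)) (d : ℤ) (p + 4)) (p + 4) := DS_mem_CC (DK_lowers _) hw
    funext x
    by_contra hne
    obtain ⟨⟨h2, h3, h4⟩, h5⟩ := h1 x hne
    obtain ⟨F, u⟩ := x
    have h6 := h2.2
    simp only [dg_mk] at h6 h5 h4 h3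
    rw [Finset.erase_eq_of_notMem h3, h5] at h6
    rw [Fin.sum_univ_two] at h6
    have h7 := h4 (Sum.inr 0)
    have h8 := h4 (Sum.inr 1)
    push_cast at h6
    simp only [sub_self, zero_mul] at h6
    omega
  · intro y l hy hl
    exact DK_pair _ _ _ y l hy hl

end Pool.Agent.H940R2
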