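import Mathlib
import Pool.Agent.H940R2.Koszul

/-!
A vanishing lemma for Koszul cycles.
-/

namespace Pool.Agent.H940R2

open MvPolynomial Finset

variable {J σ K κ : Type*} [Fintype J] [LinearOrder J] [Field K] [Infinite K]

theorem vanish (Cp : κ → J → Prop) [∀ c, DecidablePred (Cp c)] (φ : J → MvPolynomial σ K)
    (hφ : ∀ (c : κ) (s : Finset J), (∀ b ∈ s, Cp c b) → ∀ t : J → K,
      ∑ b ∈ s, t b • φ b = 0 → ∀ b ∈ s, t b = 0) (n : ℕ) :
    ∀ (M : Submodule K (MvPolynomial σ K)) [FiniteDimensional K M],
      Module.finrank K M ≤ n → ∀ (f : Finset J → MvPolynomial σ K), (∀ G, f G ∈ M) →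
      (∀ G, G.card ≠ n → f G = 0) → (∀ G, f G ≠ 0 → ∀ b ∈ G, ∃ c, Cp c b) →
      (∀ (c : κ) (G : Finset J),
        ∑ b ∈ Gᶜ.filter (Cp c), sg K G b • (φ b * f (insert b G)) = 0) → f = 0 := by
  induction n with
  | zero =>
    intro M _ hM f hf _ _ _
    have hbot : M = ⊥ := by
      apply Submodule.finrank_eq_zero.mp
      omega
    funext G
    have := hf G
    rw [hbot, Submodule.mem_bot] at this
    exact this
  | succ n ih =>
    intro M _ hM f hf hcard hcov hcyc
    by_contra hne
    obtain ⟨G0, hG0⟩ : ∃ G0, f G0 ≠ 0 := by
      by_contra h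
      push Not at h
      exact hne (funext h)
    have claimA : ∀ a : σ → K, eval a (f G0) ≠ 0 → ∀ (c : κ) (G : Finset J),
        ∑ b ∈ Gᶜ.filter (Cp c), (sg K G b * eval a (φ b)) • f (insert b G) = 0 := by
      intro a ha c
      let M' : Submodule K (MvPolynomial σ K) := M ⊓ LinearMap.ker (aeval a).toLinearMap
      have hlt : M' < M := by
        refine lt_of_le_of_ne inf_le_left ?_
        intro h
        have h1 : f G0 ∈ M' := by
          rw [h]; exact hf G0
        apply ha
        have h2 := LinearMap.mem_ker.mp (Submodule.mem_inf.mp h1).2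
        simpa [aeval_eq_eval] using h2
      have hfd : FiniteDimensional K M' := Submodule.finiteDimensional_of_le hlt.le
      have hfr : Module.finrank K M' ≤ n := by
        have := Submodule.finrank_lt_finrank_of_lt hlt
        omega
      have key := @ih M' hfd hfr
        (fun G => ∑ b ∈ Gᶜ.filter (Cp c), (sg K G b * eval a (φ b)) • f (insert b G)) ?_ ?_ ?_ ?_
      · intro G
        exact congrFun key G
      · intro G
        refine Submodule.mem_inf.mpr
          ⟨Submodule.sum_mem _ fun b _ => Submodule.smul_mem _ _ (hf _), ?_⟩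
        rw [LinearMap.mem_ker, map_sum]
        have h1 := congrArg (eval a) (hcyc c G)
        rw [map_sum, map_zero] at h1
        rw [← h1]
        refine Finset.sum_congr rfl fun b _ => ?_
        rw [map_smul, smul_eval, map_mul, AlgHom.toLinearMap_apply, aeval_eq_eval, smul_eq_mul]
        simp only [coe_eval₂Hom, eval, RingHom.coe_coe]
        ring
      · intro G hG
        apply Finset.sum_eq_zero
        intro b hb
        rw [hcard, smul_zero]
        rw [Finset.card_insert_of_notMem (by simpa using (Finset.mem_filter.mp hb).1)]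
        omega
      · intro G hG b' hb'
        obtain ⟨b, hb, hb2⟩ := Finset.exists_ne_zero_of_sum_ne_zero hG
        have h1 : f (insert b G) ≠ 0 := by
          intro h
          rw [h, smul_zero] at hb2
          exact hb2 rfl
        exact hcov _ h1 b' (Finset.mem_insert_of_mem hb')
      · intro c' G
        simp only [Finset.mul_sum, Finset.smul_sum]
        rw [Finset.sum_comm' (t' := Gᶜ.filter (Cp c))
          (s' := fun b => (insert b G)ᶜ.filter (Cp c'))]
        · apply Finset.sum_eq_zero
          intro b hb
          have hbG : b ∉ G := by simpa using (Finset.mem_filter.mp hb).1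
          have h1 := hcyc c' (insert b G)
          have h2 : ∑ b' ∈ (insert b G)ᶜ.filter (Cp c'), sg K G b' •
              (φ b' * (sg K (insert b' G) b * eval a (φ b)) • f (insert b (insert b' G))) =
              -(sg K G b * eval a (φ b)) • ∑ b' ∈ (insert b G)ᶜ.filter (Cp c'),
                sg K (insert b G) b' • (φ b' * f (insert b' (insert b G))) := by
            rw [Finset.smul_sum]
            refine Finset.sum_congr rfl fun b' hb' => ?_
            simp only [Finset.mem_filter, Finset.mem_compl, Finset.mem_insert, not_or] at hb'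
            have h3 := sg_anti (K := K) G hbG hb'.1.2 (Ne.symm hb'.1.1)
            rw [Finset.insert_comm b b' G, mul_smul_comm, smul_smul, smul_smul]
            congr 1
            linear_combination (eval a (φ b)) * h3
          rw [h2, h1, smul_zero]
        · intro x y
          simp only [Finset.mem_filter, Finset.mem_compl, Finset.mem_insert, not_or]
          constructor
          · rintro ⟨⟨h1, h2⟩, ⟨h3, h4⟩, h5⟩
            exact ⟨⟨⟨Ne.symm h3, h1⟩, h2⟩, h4, h5⟩
          · rintro ⟨⟨⟨h3, h1⟩, h2⟩, h4, h5⟩
            exact ⟨⟨h1, h2⟩, ⟨Ne.symm h3, h4⟩, h5⟩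
    have claimB : ∀ (c : κ) (G : Finset J) (b : J), b ∉ G → Cp c b → f (insert b G) = 0 := by
      intro c G b hb hcb
      ext u
      rw [coeff_zero]
      have h1 : (∑ b ∈ Gᶜ.filter (Cp c), (sg K G b * coeff u (f (insert b G))) • φ b) * f G0 = 0 := by
        apply MvPolynomial.funext
        intro a
        rw [map_mul, map_zero]
        by_cases ha : eval a (f G0) = 0
        · rw [ha, mul_zero]
        · have h2 := congrArg (coeff u) (claimA a ha c G)
          rw [coeff_sum, coeff_zero] at h2
          rw [map_sum]
          have h3 : ∑ b ∈ Gᶜ.filter (Cp c), (eval a) ((sg K G b * coeff u (f (insert b G))) • φ b) = 0 := by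
            rw [← h2]
            refine Finset.sum_congr rfl fun b _ => ?_
            rw [smul_eval, coeff_smul, smul_eq_mul]
            ring
          rw [h3, zero_mul]
      have h2 := (mul_eq_zero.mp h1).resolve_right hG0
      have h3 := hφ c _ (fun b hb => (Finset.mem_filter.mp hb).2) _ h2 b
        (Finset.mem_filter.mpr ⟨by simpa using hb, hcb⟩)
      exact (mul_eq_zero.mp h3).resolve_left (sg_ne_zero G b)
    have hpos : G0.Nonempty := by
      rw [← Finset.card_pos]
      by_contra h
      exact hG0 (hcard G0 (by omega))
    obtain ⟨b, hb⟩ := hpos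
    obtain ⟨c, hc⟩ := hcov G0 hG0 b hb
    have h1 := claimB c (G0.erase b) b (Finset.notMem_erase b G0) hc
    rw [Finset.insert_erase hb] at h1
    exact hG0 h1

end Pool.Agent.H940R2
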