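import Mathlib
import Pool.Agent.H940R2.Lead

/-!
Cardinalities and the decay of the dimensions of the spaces of cycles past the middle.
-/

namespace Pool.Agent.H940R2

open MvPolynomial Finset

variable {d : ℕ}

/-- the `x`-part as a function on four letters -/
noncomputable def x4 (u : Var →₀ ℕ) : Fin 4 →₀ ℕ :=
  Finsupp.equivFunOnFinite.symm (fun a => u (Sum.inl a))

@[simp] lemma x4_apply (u : Var →₀ ℕ) (a : Fin 4) : x4 u a = u (Sum.inl a) := rfl

lemma x4_mem (u : Mon d) : x4 u.1 ∈ Finset.finsuppAntidiag (Finset.univ : Finset (Fin 4)) d := by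
  rw [Finset.mem_finsuppAntidiag]
  exact ⟨u.2.1, Finset.subset_univ _⟩

/-- the monomials of bidegree `(d,d)` as pairs -/
noncomputable def monEquiv (d : ℕ) :
    Mon d ≃ {a // a ∈ Finset.finsuppAntidiag (Finset.univ : Finset (Fin 4)) d} × Fin (d + 1) where
  toFun u := (⟨x4 u.1, x4_mem u⟩, ⟨u.1 (Sum.inr 0), Nat.lt_succ_of_le (u.le _)⟩)
  invFun x := ⟨mk x.1.1 x.2.1 (d - x.2.1), by
    constructor
    · have := x.1.2
      rw [Finset.mem_finsuppAntidiag] at this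
      exact this.1
    · rw [Fin.sum_univ_two, mk_inr0, mk_inr1]
      have := x.2.2
      omega⟩
  left_inv u := by
    apply Subtype.ext
    apply Finsupp.ext
    intro c
    rcases c with a | b
    · rfl
    · have h := u.2.2
      rw [Fin.sum_univ_two] at h
      fin_cases b
      · rfl
      · change d - u.1 (Sum.inr 0) = u.1 (Sum.inr 1)
        omega
  right_inv x := by
    obtain ⟨⟨a, ha⟩, ⟨k, hk⟩⟩ := x
    apply Prod.ext
    · apply Subtype.ext
      apply Finsupp.ext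
      intro c
      rfl
    · rfl

lemma h0_eq (d : ℕ) : h0 d = (d + 1) * NN d := by
  rw [h0, Fintype.card_congr (monEquiv d), Fintype.card_prod, Fintype.card_fin, Fintype.card_coe,
    NN, mul_comm]

lemma card_Cp (c : Fin 2) : (univ.filter (Cp d c)).card = NN d := by
  refine Finset.card_bij (fun i _ => x4 (mon d i).1) ?_ ?_ ?_
  · intro i _
    exact x4_mem _
  · intro i hi j hj h
    apply xp_mon_injOn c (Finset.mem_filter.mp hi).2 (Finset.mem_filter.mp hj).2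
    apply Finsupp.ext
    intro e
    rcases e with a | b
    · exact DFunLike.congr_fun h a
    · rfl
  · intro a ha
    rw [Finset.mem_finsuppAntidiag] at ha
    let u : Mon d := ⟨mk a (if c = 0 then d else 0) (if c = 0 then 0 else d), by
      constructor
      · exact ha.1
      · rw [Fin.sum_univ_two, mk_inr0, mk_inr1]
        split_ifs <;> simp⟩
    have e : mon d ((mon d).symm u) = u := Equiv.apply_symm_apply _ _
    refine ⟨(mon d).symm u, ?_, ?_⟩
    · rw [Finset.mem_filter]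
      refine ⟨Finset.mem_univ _, ?_⟩
      rw [Cp, e]
      fin_cases c <;> rfl
    · rw [e]
      apply Finsupp.ext
      intro i
      rfl

lemma card_blk (hd : 0 < d) : (univ.filter (blk d)).card = 2 * NN d := by
  have h : univ.filter (blk d) = univ.filter (Cp d 0) ∪ univ.filter (Cp d 1) := by
    ext i
    simp [blk]
  rw [h, Finset.card_union_of_disjoint, card_Cp, card_Cp, two_mul]
  rw [Finset.disjoint_left]
  intro i hi hi'
  have h1 := (Finset.mem_filter.mp hi).2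
  have h2 := (Finset.mem_filter.mp hi').2
  have h3 := other_of_Cp (c := 0) (c' := 1) (by decide) h1
  rw [Cp, h3] at h2
  omega

lemma nu_univ (hd : 0 < d) : nu (univ : Finset (Fin (h0 d))) + 2 * NN d = h0 d := by
  rw [← card_blk hd, nu, add_comm]
  rw [Finset.card_filter_add_card_filter_not]
  simp

/-- `4 d² + 4`, the excess -/
def mu (d : ℕ) : ℝ := 4 * (d : ℝ) ^ 2 + 4

lemma real_NN (n : ℕ) : 6 * (NN n : ℝ) = ((n : ℝ) + 1) * (n + 2) * (n + 3) := by
  exact_mod_cast six_NN n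

lemma real_NN4 (hd : 4 ≤ d) : 6 * (NN (d - 4) : ℝ) = ((d : ℝ) - 3) * (d - 2) * (d - 1) := by
  rw [real_NN, Nat.cast_sub hd]
  push_cast
  ring

lemma real_h0 (d : ℕ) : (h0 d : ℝ) = ((d : ℝ) + 1) * NN d := by
  rw [h0_eq]
  push_cast
  ring

lemma mu_eq (hd : 4 ≤ d) : 2 * (NN d : ℝ) - 2 * NN (d - 4) = mu d := by
  have h1 := real_NN d
  have h2 := real_NN4 hd
  rw [mu]
  linear_combination (1/3 : ℝ) * h1 - (1/3 : ℝ) * h2

/-- the dimension of the space of cycles -/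
noncomputable def kap (d p : ℕ) : ℝ := (Module.finrank ℂ (KK d p) : ℝ)

lemma kap_nonneg (d p : ℕ) : 0 ≤ kap d p := Nat.cast_nonneg _

lemma h0_pos (hd : 10 ≤ d) : (3000 : ℝ) ≤ h0 d := by
  have h1 := real_NN d
  have h2 := real_h0 d
  have hd' : (10 : ℝ) ≤ d := by exact_mod_cast hd
  have h3 : (286 : ℝ) ≤ NN d := by
    have : ((10 : ℝ) + 1) * (10 + 2) * (10 + 3) ≤ ((d : ℝ) + 1) * (d + 2) * (d + 3) := by
      gcongr
    linarith
  rw [h2]
  nlinarith

lemma mu_le (hd : 10 ≤ d) : mu d ≤ h0 d := by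
  have h1 := real_NN d
  have h2 := real_h0 d
  have hd' : (10 : ℝ) ≤ d := by exact_mod_cast hd
  rw [h2, mu]
  have h3 : 6 * (((d : ℝ) + 1) * NN d) = ((d : ℝ) + 1) * (((d : ℝ) + 1) * (d + 2) * (d + 3)) := by
    rw [← h1]; ring
  nlinarith [mul_self_nonneg ((d : ℝ)), mul_nonneg (sub_nonneg.mpr hd') (sub_nonneg.mpr hd'),
    mul_nonneg (mul_nonneg (sub_nonneg.mpr hd') (sub_nonneg.mpr hd')) (sub_nonneg.mpr hd'),
    mul_nonneg (mul_nonneg (sub_nonneg.mpr hd') (sub_nonneg.mpr hd'))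
      (mul_nonneg (sub_nonneg.mpr hd') (sub_nonneg.mpr hd'))]

lemma step (hd : 10 ≤ d) {p : ℕ} (hp : (h0 d : ℝ) - 1 ≤ 2 * p) :
    kap d (p + 1) ≤ (1 - mu d / h0 d) * kap d p := by
  have h1 : (((p : ℤ) + 2 - NN (d - 4)) * Module.finrank ℂ (KK d (p + 1)) : ℝ) ≤
      ((nu (univ : Finset (Fin (h0 d))) : ℤ) + NN (d - 4) - p - 1) *
        Module.finrank ℂ (KK d p) := by
    exact_mod_cast ratio (d := d) (by omega) p
  have h2 : (nu (univ : Finset (Fin (h0 d))) : ℝ) + 2 * NN d = h0 d := by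
    exact_mod_cast nu_univ (d := d) (by omega)
  have h3 := mu_eq (d := d) (by omega)
  have h4 := real_h0 d
  have h5 := h0_pos hd
  have h6 := mu_le hd
  have hd' : (10 : ℝ) ≤ d := by exact_mod_cast hd
  have h7 : (0 : ℝ) ≤ mu d := by rw [mu]; positivity
  have h8 : (0 : ℝ) ≤ NN (d - 4) := Nat.cast_nonneg _
  set D : ℝ := (h0 d : ℝ) with hD
  set i0 : ℝ := (NN (d - 4) : ℝ) with hi0
  have h9 : 2 * i0 < D := by
    have : (0 : ℝ) < NN d := by
      by_contra h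
      push Not at h
      nlinarith
    nlinarith
  push_cast at h1
  change ((p : ℝ) + 2 - i0) * kap d (p + 1) ≤ _ * kap d p at h1
  have hx : 0 < (p : ℝ) + 2 - i0 := by linarith
  have hD0 : 0 < D := by linarith
  have hy : (nu (univ : Finset (Fin (h0 d))) : ℝ) + i0 - p - 1 ≤ (1 - mu d / D) * (p + 2 - i0) := by
    have e1 : (nu (univ : Finset (Fin (h0 d))) : ℝ) = D - mu d - 2 * i0 := by linarith
    rw [e1]
    have e2 : mu d / D * ((p : ℝ) + 2 - i0) = (mu d * (p + 2 - i0)) / D := by ring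
    have e3 : (1 - mu d / D) * ((p : ℝ) + 2 - i0) = (p + 2 - i0) - (mu d * (p + 2 - i0)) / D := by
      rw [sub_mul, one_mul, e2]
    rw [e3, le_sub_iff_add_le, ← le_sub_iff_add_le', div_le_iff₀ hD0]
    -- mu * x ≤ (x - (D - mu - 2 i0 + i0 - p - 1)) * D
    have e4 : (p : ℝ) + 2 - i0 - (D - mu d - 2 * i0 + i0 - p - 1) = 2 * p + 3 - D + mu d := by ring
    rw [e4]
    -- mu * (p + 2 - i0) ≤ (2 p + 3 - D + mu) * D
    have e5 : mu d * (p + 2 - i0) ≤ mu d * (p + 2) := by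
      apply mul_le_mul_of_nonneg_left _ h7
      linarith
    refine e5.trans ?_
    set t : ℝ := 2 * p + 1 - D with ht
    have ht0 : 0 ≤ t := by linarith
    have e6 : (p : ℝ) = (t + D - 1) / 2 := by rw [ht]; ring
    have e7 : 2 * (p : ℝ) + 3 - D + mu d = t + 2 + mu d := by rw [ht]; ring
    rw [e7, e6]
    nlinarith [mul_nonneg h7 ht0, mul_nonneg ht0 hD0.le, mul_le_mul_of_nonneg_right h6 ht0]
  have h10 : ((p : ℝ) + 2 - i0) * kap d (p + 1) ≤
      ((p : ℝ) + 2 - i0) * ((1 - mu d / D) * kap d p) := by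
    calc ((p : ℝ) + 2 - i0) * kap d (p + 1)
        ≤ ((nu (univ : Finset (Fin (h0 d))) : ℝ) + i0 - p - 1) * kap d p := h1
      _ ≤ ((1 - mu d / D) * (p + 2 - i0)) * kap d p :=
          mul_le_mul_of_nonneg_right hy (kap_nonneg d p)
      _ = _ := by ring
  exact le_of_mul_le_mul_left h10 hx

lemma iter (hd : 10 ≤ d) {p : ℕ} (hp : (h0 d : ℝ) - 1 ≤ 2 * p) (s : ℕ) :
    kap d (p + s) ≤ (1 - mu d / h0 d) ^ s * kap d p := by
  have h5 := h0_pos hd
  have h6 := mu_le hd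
  have hD0 : (0 : ℝ) < h0 d := by linarith
  have h0' : 0 ≤ 1 - mu d / h0 d := by
    rw [sub_nonneg, div_le_one hD0]
    exact h6
  induction s with
  | zero => simp
  | succ s ih =>
    have h1 : kap d (p + s + 1) ≤ (1 - mu d / h0 d) * kap d (p + s) := by
      apply step hd
      push_cast
      have : (0 : ℝ) ≤ s := Nat.cast_nonneg _
      linarith
    calc kap d (p + (s + 1)) = kap d (p + s + 1) := by rw [add_assoc]
      _ ≤ (1 - mu d / h0 d) * kap d (p + s) := h1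
      _ ≤ (1 - mu d / h0 d) * ((1 - mu d / h0 d) ^ s * kap d p) :=
          mul_le_mul_of_nonneg_left ih h0'
      _ = _ := by ring

/-- the number of steps -/
noncomputable def ss (d : ℕ) : ℕ := ⌊Real.sqrt (rr d)⌋₊

lemma three_le (hd : 10 ≤ d) : 3 * (h0 d : ℝ) ≤ mu d * ss d := by
  have hd' : (10 : ℝ) ≤ d := by exact_mod_cast hd
  have h1 := real_NN d
  have h2 := real_h0 d
  have h3 : 6 * (h0 d : ℝ) = ((d : ℝ) + 1) * (((d : ℝ) + 1) * (d + 2) * (d + 3)) := by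
    rw [h2, ← h1]; ring
  -- k = d² / 3
  set k : ℕ := d ^ 2 / 3 with hk
  have hk1 : 3 * k ≤ d ^ 2 := Nat.mul_div_le _ _
  have hk2 : d ^ 2 ≤ 3 * k + 2 := by omega
  have hk1' : 3 * (k : ℝ) ≤ (d : ℝ) ^ 2 := by exact_mod_cast hk1
  have hk2' : (d : ℝ) ^ 2 ≤ 3 * k + 2 := by exact_mod_cast hk2
  have hk0 : (0 : ℝ) ≤ k := Nat.cast_nonneg _
  have hs : k ≤ ss d := by
    rw [ss]
    apply Nat.le_floor
    apply Real.le_sqrt_of_sq_le
    rw [rr]
    have h4 : 9 * (k : ℝ) ^ 2 ≤ (d : ℝ) ^ 4 := by nlinarith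
    have h5 : (d : ℝ) ^ 4 + 6 ≤ 6 * (h0 d : ℝ) := by
      rw [h3]
      nlinarith [pow_pos (show (0 : ℝ) < d by linarith) 3, pow_pos (show (0 : ℝ) < d by linarith) 2]
    nlinarith [sq_nonneg (k : ℝ)]
  have hs' : (k : ℝ) ≤ ss d := by exact_mod_cast hs
  have h7 : (0 : ℝ) ≤ mu d := by rw [mu]; positivity
  refine le_trans ?_ (mul_le_mul_of_nonneg_left hs' h7)
  rw [mu]
  have h8 : (4 * (d : ℝ) ^ 2 + 4) * ((d : ℝ) ^ 2 - 2) ≤ (4 * (d : ℝ) ^ 2 + 4) * (3 * k) := by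
    apply mul_le_mul_of_nonneg_left _ (by positivity)
    linarith
  have h9 : 9 * (h0 d : ℝ) ≤ (4 * (d : ℝ) ^ 2 + 4) * ((d : ℝ) ^ 2 - 2) := by
    have : 18 * (h0 d : ℝ) ≤ 2 * ((4 * (d : ℝ) ^ 2 + 4) * ((d : ℝ) ^ 2 - 2)) := by
      have e : 18 * (h0 d : ℝ) = 3 * (((d : ℝ) + 1) * (((d : ℝ) + 1) * (d + 2) * (d + 3))) := by
        rw [← h3]; ring
      rw [e]
      obtain ⟨t, ht, ht2⟩ : ∃ t : ℝ, 0 ≤ t ∧ (d : ℝ) = t + 10 := ⟨d - 10, by linarith, by ring⟩
      have e2 : 2 * ((4 * (d : ℝ) ^ 2 + 4) * ((d : ℝ) ^ 2 - 2)) -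
          3 * (((d : ℝ) + 1) * (((d : ℝ) + 1) * (d + 2) * (d + 3))) =
          5 * t ^ 4 + 179 * t ^ 3 + 2311 * t ^ 2 + 12469 * t + 22556 := by
        rw [ht2]; ring
      have e3 : 0 ≤ 5 * t ^ 4 + 179 * t ^ 3 + 2311 * t ^ 2 + 12469 * t + 22556 := by positivity
      linarith
    linarith
  linarith

end Pool.Agent.H940R2
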